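import Mathlib

set_option autoImplicit false

/-!
# What is needed of one tree
-/

namespace Pool.Agent.Lib.MP_251106_co

/-- What is needed of one tree: `sep C D` means that the subtrees spanned by `C` and `D` are
disjoint, `up x C` means that the path from `x` to the root meets the subtree spanned by `C`. -/
structure Sys (n : ℕ) where
  sep : Finset (Fin n) → Finset (Fin n) → Prop
  up : Fin n → Finset (Fin n) → Prop
  symm : ∀ {C D : Finset (Fin n)}, sep C D → sep D C
  mono : ∀ {C C' D : Finset (Fin n)}, C' ⊆ C → sep C D → sep C' D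
  single : ∀ {x : Fin n} {D : Finset (Fin n)}, x ∉ D → sep {x} D
  disj : ∀ {C D : Finset (Fin n)}, sep C D → Disjoint C D
  up_unique : ∀ {x : Fin n} {C D : Finset (Fin n)}, up x C → up x D → sep (insert x C) D →
    sep (insert x D) C → False
  up_bad : ∀ D : Finset (Fin n), 3 ≤ D.card → ∃ y ∈ D, ∀ x ∈ D, x ≠ y → up x (D.erase x)
  types : ∀ γ : Finset (Finset (Fin n)), (∀ C ∈ γ, ∀ D ∈ γ, C ≠ D → sep C D) →
    ∃ τ : Fin n → Option (Finset (Fin n)), (∀ x C, τ x = some C → C ∈ γ) ∧
      ∀ x y, τ x = τ y → ∀ D ∈ γ, τ x ≠ some D → sep {x, y} D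
  cut : ∀ X : Finset (Fin n), 2 ≤ X.card → ∃ A : Finset (Fin n), X.card ≤ 3 * (X ∩ A).card ∧
    X.card ≤ 3 * (X \ A).card ∧ ∀ C D : Finset (Fin n), C ⊆ A → Disjoint D A → sep C D

end Pool.Agent.Lib.MP_251106_co
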