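import Mathlib
import Pool.Agent.Lib.MP_251106_co.Sys

set_option autoImplicit false

/-!
# Patterns: the classes with at least two elements of a common partition
-/

namespace Pool.Agent.Lib.MP_251106_co

open Finset

variable {n : ℕ}

/-- The sets of the family `γ` have at least two elements and the subtrees spanned by them are
pairwise disjoint, in both trees. -/
structure IsPat (S T : Sys n) (γ : Finset (Finset (Fin n))) : Prop where
  two : ∀ C ∈ γ, 2 ≤ C.card
  sepS : ∀ C ∈ γ, ∀ D ∈ γ, C ≠ D → S.sep C D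
  sepT : ∀ C ∈ γ, ∀ D ∈ γ, C ≠ D → T.sep C D

/-- the number of leaves minus the number of classes -/
def exc (γ : Finset (Finset (Fin n))) : ℕ := ∑ C ∈ γ, (C.card - 1)

open Classical in
/-- non-trivial patterns of excess `j` -/
noncomputable def pats (S T : Sys n) (j : ℕ) : Finset (Finset (Finset (Fin n))) :=
  univ.filter fun γ => IsPat S T γ ∧ exc γ = j ∧ 2 ≤ γ.card

variable {S T : Sys n} {γ : Finset (Finset (Fin n))}

theorem mem_pats {j : ℕ} : γ ∈ pats S T j ↔ IsPat S T γ ∧ exc γ = j ∧ 2 ≤ γ.card := by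
  simp only [pats, Finset.mem_filter, Finset.mem_univ, true_and]

theorem IsPat.disjoint (h : IsPat S T γ) {C D : Finset (Fin n)} (hC : C ∈ γ) (hD : D ∈ γ)
    (hne : C ≠ D) : Disjoint C D := S.disj (h.sepS C hC D hD hne)

theorem IsPat.subset (h : IsPat S T γ) {δ : Finset (Finset (Fin n))} (hδ : δ ⊆ γ) :
    IsPat S T δ :=
  ⟨fun C hC => h.two C (hδ hC), fun C hC D hD => h.sepS C (hδ hC) D (hδ hD),
    fun C hC D hD => h.sepT C (hδ hC) D (hδ hD)⟩

/-- the labels in the sets of the family -/
def used (γ : Finset (Finset (Fin n))) : Finset (Fin n) := γ.biUnion id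

theorem mem_used {x : Fin n} : x ∈ used γ ↔ ∃ C ∈ γ, x ∈ C := by
  unfold used
  simp

theorem IsPat.card_used (h : IsPat S T γ) : (used γ).card = exc γ + γ.card := by
  unfold used exc
  rw [Finset.card_biUnion]
  · rw [Finset.card_eq_sum_ones γ, ← Finset.sum_add_distrib]
    refine Finset.sum_congr rfl fun C hC => ?_
    have := h.two C hC
    simp only [id]
    omega
  · intro C hC D hD hne
    exact h.disjoint hC hD hne

theorem IsPat.le (h : IsPat S T γ) : exc γ + γ.card ≤ n := by
  rw [← h.card_used]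
  exact (Finset.card_le_univ _).trans (by simp)

theorem IsPat.card_le_exc (h : IsPat S T γ) : γ.card ≤ exc γ := by
  unfold exc
  rw [Finset.card_eq_sum_ones]
  refine Finset.sum_le_sum fun C hC => ?_
  have := h.two C hC
  omega

/-- Insert a set. -/
theorem IsPat.insert (h : IsPat S T γ) {C : Finset (Fin n)} (h2 : 2 ≤ C.card)
    (hS : ∀ D ∈ γ, S.sep C D) (hT : ∀ D ∈ γ, T.sep C D) : IsPat S T (insert C γ) := by
  refine ⟨?_, ?_, ?_⟩
  · intro D hD
    rcases Finset.mem_insert.1 hD with rfl | hD
    · exact h2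
    · exact h.two D hD
  · intro D hD E hE hne
    rcases Finset.mem_insert.1 hD with hD' | hD' <;> rcases Finset.mem_insert.1 hE with hE' | hE'
    · exact absurd (hD'.trans hE'.symm) hne
    · rw [hD']
      exact hS E hE'
    · rw [hE']
      exact S.symm (hS D hD')
    · exact h.sepS D hD' E hE' hne
  · intro D hD E hE hne
    rcases Finset.mem_insert.1 hD with hD' | hD' <;> rcases Finset.mem_insert.1 hE with hE' | hE'
    · exact absurd (hD'.trans hE'.symm) hne
    · rw [hD']
      exact hT E hE'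
    · rw [hE']
      exact T.symm (hT D hD')
    · exact h.sepT D hD' E hE' hne

/-- Replace a set of the family by a smaller one. -/
theorem IsPat.shrink (h : IsPat S T γ) {C C' : Finset (Fin n)} (hC : C ∈ γ) (hC' : C' ⊆ C)
    (h2 : 2 ≤ C'.card) : IsPat S T (Insert.insert C' (γ.erase C)) := by
  refine (h.subset (Finset.erase_subset C γ)).insert h2 ?_ ?_
  · intro D hD
    rw [Finset.mem_erase] at hD
    exact S.mono hC' (h.sepS C hC D hD.2 hD.1.symm)
  · intro D hD
    rw [Finset.mem_erase] at hD
    exact T.mono hC' (h.sepT C hC D hD.2 hD.1.symm)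

theorem IsPat.notMem_erase (h : IsPat S T γ) {C C' : Finset (Fin n)} (hC : C ∈ γ) (hC' : C' ⊆ C)
    (h2 : C'.Nonempty) : C' ∉ γ.erase C := by
  intro hD
  rw [Finset.mem_erase] at hD
  obtain ⟨x, hx⟩ := h2
  exact Finset.disjoint_left.1 (h.disjoint hC hD.2 hD.1.symm) (hC' hx) hx

theorem exc_insert {C : Finset (Fin n)} (h : C ∉ γ) :
    exc (Insert.insert C γ) = (C.card - 1) + exc γ := by
  unfold exc
  rw [Finset.sum_insert h]

theorem exc_erase {C : Finset (Fin n)} (h : C ∈ γ) : (C.card - 1) + exc (γ.erase C) = exc γ := by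
  unfold exc
  exact Finset.add_sum_erase γ (fun C => C.card - 1) h

/-- Splitting a leaf off. -/
theorem IsPat.split (h : IsPat S T γ) {C : Finset (Fin n)} (hC : C ∈ γ) (h3 : 3 ≤ C.card)
    {x : Fin n} (hx : x ∈ C) :
    IsPat S T (Insert.insert (C.erase x) (γ.erase C)) ∧
      exc (Insert.insert (C.erase x) (γ.erase C)) + 1 = exc γ ∧
      (Insert.insert (C.erase x) (γ.erase C)).card = γ.card ∧
      x ∉ used (Insert.insert (C.erase x) (γ.erase C)) := by
  have hc : (C.erase x).card = C.card - 1 := Finset.card_erase_of_mem hx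
  have hn : C.erase x ∉ γ.erase C :=
    h.notMem_erase hC (Finset.erase_subset _ _) (Finset.card_pos.1 (by omega))
  refine ⟨h.shrink hC (Finset.erase_subset _ _) (by omega), ?_, ?_, ?_⟩
  · rw [exc_insert hn, hc, ← exc_erase hC]
    omega
  · rw [Finset.card_insert_of_notMem hn, Finset.card_erase_of_mem hC]
    have := Finset.card_pos.2 ⟨C, hC⟩
    omega
  · rw [mem_used]
    rintro ⟨D, hD, hxD⟩
    rcases Finset.mem_insert.1 hD with rfl | hD
    · exact Finset.notMem_erase x C hxD
    · rw [Finset.mem_erase] at hD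
      exact Finset.disjoint_left.1 (h.disjoint hC hD.2 hD.1.symm) hx hxD

end Pool.Agent.Lib.MP_251106_co
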