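import Mathlib

set_option autoImplicit false

/-!
# Common convex partitions of pairs of phylogenetic trees (definitions)
-/

namespace Pool.Agent.Lib.MP_251106_co

/-- A phylogenetic tree with `n` leaves: a finite tree whose vertices have degree one or three
and whose leaves are labelled bijectively by `Fin n`. -/
structure PhyloTree (n : ℕ) where
  V : Type
  [finite : Finite V]
  G : SimpleGraph V
  isTree : G.IsTree
  degree : ∀ v, (G.neighborSet v).ncard = 1 ∨ (G.neighborSet v).ncard = 3
  leaf : Fin n → V
  leaf_injective : Function.Injective leaf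
  leaf_range : ∀ v, v ∈ Set.range leaf ↔ (G.neighborSet v).ncard = 1

attribute [instance] PhyloTree.finite

namespace PhyloTree

variable {n : ℕ} (T : PhyloTree n)

/-- The vertices of the path from `u` to `v`. -/
def path (u v : T.V) : Set T.V := {w | ∃ p : T.G.Walk u v, p.IsPath ∧ w ∈ p.support}

/-- The vertices of the minimal subtree spanning the leaves with labels in `C`. -/
def hull (C : Finset (Fin n)) : Set T.V :=
  {w | ∃ x ∈ C, ∃ y ∈ C, w ∈ T.path (T.leaf x) (T.leaf y)}

/-- The partition `P` of the set of labels is convex on `T`: the minimal subtrees spanning the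
classes are pairwise vertex-disjoint. -/
def Convex (P : Finpartition (Finset.univ : Finset (Fin n))) : Prop :=
  ∀ C ∈ P.parts, ∀ D ∈ P.parts, C ≠ D → Disjoint (T.hull C) (T.hull D)

/-- `T` is a caterpillar: deleting all leaves leaves a path. -/
def IsCaterpillar : Prop :=
  ∃ m : ℕ, 1 ≤ m ∧
    Nonempty ((T.G.induce {v | v ∉ Set.range T.leaf}) ≃g SimpleGraph.pathGraph m)

end PhyloTree

variable {n : ℕ}

/-- The number of common partitions of `T` and `F` with exactly `k` classes. -/
noncomputable def common (T F : PhyloTree n) (k : ℕ) : ℕ :=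
  {P : Finpartition (Finset.univ : Finset (Fin n)) |
    T.Convex P ∧ F.Convex P ∧ P.parts.card = k}.ncard

/-- The minimum of the number of common partitions with `k` classes over all pairs of
phylogenetic trees with `n` leaves. -/
noncomputable def s (n k : ℕ) : ℕ := sInf {m | ∃ T F : PhyloTree n, m = common T F k}

/-- The same minimum over all pairs of caterpillars. -/
noncomputable def c (n k : ℕ) : ℕ :=
  sInf {m | ∃ T F : PhyloTree n, T.IsCaterpillar ∧ F.IsCaterpillar ∧ m = common T F k}

/-- `a_k` -/
noncomputable def a (n k : ℕ) : ℤ := (s n k : ℤ) - n.choose (k - 1)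

/-- `b_k` -/
noncomputable def b (n k : ℕ) : ℤ := (c n k : ℤ) - n.choose (k - 1)

end Pool.Agent.Lib.MP_251106_co
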