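import Mathlib
import Pool.Agent.Lib.MP_251106_co.Defs

set_option autoImplicit false

/-!
# Betweenness in trees
-/

namespace Pool.Agent.Lib.MP_251106_co

open SimpleGraph

variable {V : Type} {G : SimpleGraph V}

/-- The vertices which lie on every walk from `u` to `v`. -/
def btw (G : SimpleGraph V) (u v : V) : Set V := {w | ∀ p : G.Walk u v, w ∈ p.support}

theorem left_mem_btw (u v : V) : u ∈ btw G u v := fun p => p.start_mem_support

theorem right_mem_btw (u v : V) : v ∈ btw G u v := fun p => p.end_mem_support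

theorem btw_symm {u v w : V} (h : w ∈ btw G u v) : w ∈ btw G v u := by
  intro p
  have := h p.reverse
  rwa [Walk.support_reverse, List.mem_reverse] at this

theorem btw_trans {u v w : V} (z : V) (h : w ∈ btw G u v) : w ∈ btw G u z ∨ w ∈ btw G z v := by
  by_contra hcon
  push Not at hcon
  obtain ⟨h1, h2⟩ := hcon
  simp only [btw, Set.mem_ofPred_eq, not_forall] at h1 h2
  obtain ⟨p, hp⟩ := h1
  obtain ⟨q, hq⟩ := h2
  have := h (p.append q)
  rw [Walk.mem_support_append_iff] at this
  tauto

theorem btw_sub_left {u v w x : V} (hv : v ∈ btw G u w) (hx : x ∈ btw G u v) :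
    x ∈ btw G u w := by
  classical
  intro p
  have h1 := hx (p.takeUntil v (hv p))
  exact Walk.support_takeUntil_subset_support p (hv p) h1

theorem btw_sub_right {u v w x : V} (hv : v ∈ btw G u w) (hx : x ∈ btw G v w) :
    x ∈ btw G u w :=
  btw_symm (btw_sub_left (btw_symm hv) (btw_symm hx))

theorem dist_lt_of_btw (hG : G.Connected) {u v x : V} (hx : x ∈ btw G u v) (hne : x ≠ v) :
    G.dist u x < G.dist u v := by
  classical
  obtain ⟨p, hp⟩ := hG.exists_walk_length_eq_dist u v
  have h1 : (p.takeUntil x (hx p)).length < p.length := Walk.length_takeUntil_lt_length (hx p) hne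
  have h2 := dist_le (p.takeUntil x (hx p))
  omega

theorem btw_antisymm (hG : G.Connected) {u v r : V} (h1 : u ∈ btw G v r) (h2 : v ∈ btw G u r) :
    u = v := by
  by_contra hne
  have h3 := dist_lt_of_btw hG (btw_symm h1) hne
  have h4 := dist_lt_of_btw hG (btw_symm h2) (Ne.symm hne)
  omega

theorem btw_linear (hG : G.Connected) {x r u v : V} (hu : u ∈ btw G x r) (hv : v ∈ btw G x r) :
    u ∈ btw G x v ∨ v ∈ btw G x u := by
  rcases btw_trans v hu with h1 | h1
  · exact Or.inl h1
  rcases btw_trans u hv with h2 | h2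
  · exact Or.inr h2
  have h3 := btw_antisymm hG h1 h2
  subst h3
  exact Or.inl (right_mem_btw _ _)

/-- Everything below `v` is convex. -/
theorem btw_down (hG : G.Connected) {r v x y w : V} (hx : v ∈ btw G x r) (hy : v ∈ btw G y r)
    (hw : w ∈ btw G x y) : v ∈ btw G w r := by
  rcases btw_trans w hx with h1 | h1
  swap
  · exact h1
  rcases btw_trans w hy with h2 | h2
  swap
  · exact h2
  have h3 : v = w := by
    rcases btw_trans v hw with h4 | h4
    · exact (btw_antisymm hG (btw_symm h4) (btw_symm h1)).symm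
    · exact (btw_antisymm hG h4 (btw_symm h2)).symm
  rw [h3]
  exact left_mem_btw _ _

/-- Everything which is not below `v` is convex. -/
theorem btw_up {r v x y w : V} (hx : v ∉ btw G x r) (hy : v ∉ btw G y r)
    (hw : w ∈ btw G x y) : v ∉ btw G w r := by
  intro hv
  rcases btw_trans r hw with h1 | h1
  · exact hx (btw_sub_right h1 hv)
  · exact hy (btw_sub_right (btw_symm h1) hv)

theorem mem_btw_of_isPath (hG : G.IsAcyclic) {u v w : V} (p : G.Walk u v) (hp : p.IsPath)
    (hw : w ∈ p.support) : w ∈ btw G u v := by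
  classical
  intro q
  have h1 : q.bypass = p := by
    have := (hG.subsingleton_path u v).elim ⟨q.bypass, q.bypass_isPath⟩ ⟨p, hp⟩
    exact congrArg Subtype.val this
  rw [← h1] at hw
  exact q.support_bypass_subset_support hw

theorem path_eq_btw {n : ℕ} (T : PhyloTree n) (u v : T.V) : T.path u v = btw T.G u v := by
  classical
  ext w
  constructor
  · rintro ⟨p, hp, hw⟩
    exact mem_btw_of_isPath T.isTree.isAcyclic p hp hw
  · intro hw
    obtain ⟨p⟩ := T.isTree.connected.preconnected u v
    exact ⟨p.bypass, p.bypass_isPath, hw _⟩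

/-- The median of three vertices. -/
theorem exists_median (hG : G.IsTree) (x y r : V) :
    ∃ m, m ∈ btw G x y ∧ m ∈ btw G x r ∧ m ∈ btw G y r := by
  classical
  have hc := hG.connected
  have hex : ∃ d : ℕ, ∃ m, m ∈ btw G x y ∧ m ∈ btw G x r ∧ G.dist y m = d :=
    ⟨_, x, left_mem_btw _ _, left_mem_btw _ _, rfl⟩
  obtain ⟨m, hm1, hm2, hm3⟩ := Nat.find_spec hex
  refine ⟨m, hm1, hm2, ?_⟩
  by_contra hcon
  have hmy : m ≠ y := by
    rintro rfl
    exact hcon (left_mem_btw _ _)
  obtain ⟨p, hp⟩ := hc.exists_isPath m y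
  cases p with
  | nil => exact hmy rfl
  | @cons _ w _ hadj q =>
    have hw : w ∈ btw G m y := by
      refine mem_btw_of_isPath hG.isAcyclic _ hp ?_
      rw [Walk.support_cons]
      exact List.mem_cons_of_mem _ q.start_mem_support
    have hwne : w ≠ m := hadj.ne'
    have hwxy : w ∈ btw G x y := btw_sub_right hm1 hw
    have hd : G.dist y w < G.dist y m := dist_lt_of_btw hc (btw_symm hw) hwne
    have hwr : w ∉ btw G x r := by
      intro h
      have := Nat.find_min hex (m := G.dist y w) (by rw [← hm3]; exact hd)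
      exact this ⟨w, hwxy, h, rfl⟩
    -- a walk from `m` to `r` avoiding `w`
    have h1 : w ∉ btw G m r := fun h => hwr (btw_sub_right hm2 h)
    have h2 : w ∈ btw G r y := by
      rcases btw_trans r hw with h | h
      · exact absurd h h1
      · exact h
    have h3 : m ∉ btw G r w := fun h => hcon (btw_symm (btw_sub_left h2 h))
    simp only [btw, Set.mem_ofPred_eq, not_forall] at h1 h3
    obtain ⟨p1, hp1⟩ := h1
    obtain ⟨p2, hp2⟩ := h3
    have hb : G.IsBridge s(m, w) := (isAcyclic_iff_forall_adj_isBridge.1 hG.isAcyclic) hadj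
    rw [isBridge_iff_forall_walk_mem_edges] at hb
    have h4 := hb (p1.append p2)
    rw [Walk.edges_append, List.mem_append] at h4
    rcases h4 with h4 | h4
    · exact hp1 (Walk.snd_mem_support_of_mem_edges _ h4)
    · exact hp2 (Walk.fst_mem_support_of_mem_edges _ h4)

/-- A vertex of degree one is not inside of a path. -/
theorem leaf_btw (hc : G.Connected) {u y z : V} (hu : (G.neighborSet u).ncard = 1)
    (h : u ∈ btw G y z) : u = y ∨ u = z := by
  classical
  by_contra hcon
  push Not at hcon
  obtain ⟨hy, hz⟩ := hcon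
  obtain ⟨w, hw⟩ := Set.ncard_eq_one.1 hu
  have key : ∀ t, u ≠ t → ∃ q : G.Walk w t, u ∉ q.support := by
    intro t ht
    obtain ⟨p, hp⟩ := hc.exists_isPath u t
    cases p with
    | nil => exact absurd rfl ht
    | @cons _ w' _ hadj q =>
      have h1 : w' ∈ G.neighborSet u := hadj
      rw [hw, Set.mem_singleton_iff] at h1
      subst h1
      exact ⟨q, (Walk.cons_isPath_iff _ _).1 hp |>.2⟩
  obtain ⟨q1, hq1⟩ := key y hy
  obtain ⟨q2, hq2⟩ := key z hz
  have h1 := h (q1.reverse.append q2)
  rw [Walk.mem_support_append_iff, Walk.support_reverse, List.mem_reverse] at h1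
  tauto

end Pool.Agent.Lib.MP_251106_co
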