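import Mathlib
import Pool.Agent.Lib.MP_251106_co.TreePath
import Pool.Agent.Lib.MP_251106_co.Sys

set_option autoImplicit false

/-!
# The system of a phylogenetic tree
-/

namespace Pool.Agent.Lib.MP_251106_co

open SimpleGraph

variable {n : ℕ} (T : PhyloTree n)

theorem mem_hull {C : Finset (Fin n)} {w : T.V} :
    w ∈ T.hull C ↔ ∃ x ∈ C, ∃ y ∈ C, w ∈ btw T.G (T.leaf x) (T.leaf y) := by
  unfold PhyloTree.hull
  simp only [path_eq_btw, Set.mem_ofPred_eq]

theorem conn : T.G.Connected := T.isTree.connected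

theorem leaf_mem_hull {C : Finset (Fin n)} {x : Fin n} (hx : x ∈ C) : T.leaf x ∈ T.hull C :=
  (mem_hull T).2 ⟨x, hx, x, hx, left_mem_btw _ _⟩

theorem hull_mono {C D : Finset (Fin n)} (h : C ⊆ D) : T.hull C ⊆ T.hull D := by
  intro w hw
  obtain ⟨x, hx, y, hy, hxy⟩ := (mem_hull T).1 hw
  exact (mem_hull T).2 ⟨x, h hx, y, h hy, hxy⟩

theorem hull_convex {C : Finset (Fin n)} {u v w : T.V} (hu : u ∈ T.hull C) (hv : v ∈ T.hull C)
    (hw : w ∈ btw T.G u v) : w ∈ T.hull C := by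
  obtain ⟨a, ha, b, hb, hab⟩ := (mem_hull T).1 hu
  obtain ⟨c, hc, d, hd, hcd⟩ := (mem_hull T).1 hv
  rcases btw_trans (T.leaf a) hw with h1 | h1
  · exact (mem_hull T).2 ⟨a, ha, b, hb, btw_sub_left hab (btw_symm h1)⟩
  rcases btw_trans (T.leaf c) h1 with h2 | h2
  · exact (mem_hull T).2 ⟨a, ha, c, hc, h2⟩
  · exact (mem_hull T).2 ⟨c, hc, d, hd, btw_sub_left hcd h2⟩

theorem btw_self {V : Type} {G : SimpleGraph V} {u w : V} (h : w ∈ btw G u u) : w = u := by
  have := h Walk.nil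
  rwa [Walk.support_nil, List.mem_singleton] at this

theorem leaf_deg (x : Fin n) : (T.G.neighborSet (T.leaf x)).ncard = 1 :=
  (T.leaf_range _).1 ⟨x, rfl⟩

theorem sep_single {x : Fin n} {D : Finset (Fin n)} (hx : x ∉ D) :
    Disjoint (T.hull {x}) (T.hull D) := by
  rw [Set.disjoint_left]
  intro w hw hw'
  obtain ⟨y, hy, z, hz, hyz⟩ := (mem_hull T).1 hw
  rw [Finset.mem_singleton] at hy hz
  subst hy hz
  have h1 := btw_self hyz
  subst h1
  obtain ⟨a, ha, b, hb, hab⟩ := (mem_hull T).1 hw'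
  rcases leaf_btw (conn T) (leaf_deg T _) hab with h | h
  · exact hx (T.leaf_injective h ▸ ha)
  · exact hx (T.leaf_injective h ▸ hb)

theorem up_unique {r : T.V} {x : Fin n} {C D : Finset (Fin n)}
    (hC : (btw T.G (T.leaf x) r ∩ T.hull C).Nonempty)
    (hD : (btw T.G (T.leaf x) r ∩ T.hull D).Nonempty)
    (h1 : Disjoint (T.hull (insert x C)) (T.hull D))
    (h2 : Disjoint (T.hull (insert x D)) (T.hull C)) : False := by
  obtain ⟨u, hu, hu'⟩ := hC
  obtain ⟨v, hv, hv'⟩ := hD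
  rcases btw_linear (conn T) hu hv with h | h
  · have h3 : u ∈ T.hull (insert x D) :=
      hull_convex T (leaf_mem_hull T (Finset.mem_insert_self _ _))
        (hull_mono T (Finset.subset_insert _ _) hv') h
    exact Set.disjoint_left.1 h2 h3 hu'
  · have h3 : v ∈ T.hull (insert x C) :=
      hull_convex T (leaf_mem_hull T (Finset.mem_insert_self _ _))
        (hull_mono T (Finset.subset_insert _ _) hu') h
    exact Set.disjoint_left.1 h1 h3 hv'

theorem up_bad (r : T.V) (D : Finset (Fin n)) (hD : 3 ≤ D.card) :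
    ∃ y ∈ D, ∀ x ∈ D, x ≠ y → (btw T.G (T.leaf x) r ∩ T.hull (D.erase x)).Nonempty := by
  classical
  by_cases hall : ∀ x ∈ D, (btw T.G (T.leaf x) r ∩ T.hull (D.erase x)).Nonempty
  · obtain ⟨y, hy⟩ : D.Nonempty := Finset.card_pos.1 (by omega)
    exact ⟨y, hy, fun x hx _ => hall x hx⟩
  push Not at hall
  obtain ⟨y, hy, hybad⟩ := hall
  refine ⟨y, hy, fun x hx hxy => ?_⟩
  by_contra hxbad
  rw [Set.not_nonempty_iff_eq_empty] at hxbad
  obtain ⟨z, hz⟩ : ((D.erase x).erase y).Nonempty := by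
    apply Finset.card_pos.1
    rw [Finset.card_erase_of_mem (Finset.mem_erase.2 ⟨hxy.symm, hy⟩), Finset.card_erase_of_mem hx]
    omega
  rw [Finset.mem_erase, Finset.mem_erase] at hz
  obtain ⟨hzy, hzx, hzD⟩ := hz
  obtain ⟨m, hm1, hm2, hm3⟩ := exists_median T.isTree (T.leaf x) (T.leaf y) r
  rcases btw_trans (T.leaf z) hm1 with h | h
  · have h1 : m ∈ T.hull (D.erase y) :=
      (mem_hull T).2 ⟨x, Finset.mem_erase.2 ⟨hxy, hx⟩, z, Finset.mem_erase.2 ⟨hzy, hzD⟩, h⟩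
    have h2 : m ∈ (btw T.G (T.leaf y) r ∩ T.hull (D.erase y)) := ⟨hm3, h1⟩
    rw [hybad] at h2
    exact h2
  · have h1 : m ∈ T.hull (D.erase x) :=
      (mem_hull T).2 ⟨z, Finset.mem_erase.2 ⟨hzx, hzD⟩, y, Finset.mem_erase.2 ⟨hxy.symm, hy⟩, h⟩
    have h2 : m ∈ (btw T.G (T.leaf x) r ∩ T.hull (D.erase x)) := ⟨hm2, h1⟩
    rw [hxbad] at h2
    exact h2

/-- The first class above a leaf. -/
theorem exists_type (r : T.V) (γ : Finset (Finset (Fin n)))
    (hγ : ∀ C ∈ γ, ∀ D ∈ γ, C ≠ D → Disjoint (T.hull C) (T.hull D)) (x : Fin n) :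
    (∀ D ∈ γ, Disjoint (btw T.G (T.leaf x) r) (T.hull D)) ∨
    ∃ C ∈ γ, ∃ v ∈ T.hull C, ∀ D ∈ γ, D ≠ C → Disjoint (btw T.G (T.leaf x) v) (T.hull D) := by
  classical
  by_cases hne : ∃ d : ℕ, ∃ v, v ∈ btw T.G (T.leaf x) r ∧ (∃ C ∈ γ, v ∈ T.hull C) ∧
      T.G.dist (T.leaf x) v = d
  · right
    obtain ⟨v, hv, ⟨C, hC, hvC⟩, hd⟩ := Nat.find_spec hne
    refine ⟨C, hC, v, hvC, fun D hD hDC => ?_⟩
    rw [Set.disjoint_left]
    intro w hw hwD
    have hwv : w ≠ v := by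
      rintro rfl
      exact Set.disjoint_left.1 (hγ D hD C hC hDC) hwD hvC
    have h1 := dist_lt_of_btw (conn T) hw hwv
    refine Nat.find_min hne (m := T.G.dist (T.leaf x) w) (by rw [← hd]; exact h1) ?_
    exact ⟨w, btw_sub_left hv hw, ⟨D, hD, hwD⟩, rfl⟩
  · left
    intro D hD
    rw [Set.disjoint_left]
    intro w hw hwD
    exact hne ⟨_, w, hw, ⟨D, hD, hwD⟩, rfl⟩

theorem mem_hull_pair {x y : Fin n} {w : T.V} (h : w ∈ T.hull {x, y}) :
    w ∈ btw T.G (T.leaf x) (T.leaf y) := by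
  obtain ⟨a, ha, b, hb, hab⟩ := (mem_hull T).1 h
  rw [Finset.mem_insert, Finset.mem_singleton] at ha hb
  rcases ha with rfl | rfl <;> rcases hb with rfl | rfl
  · rw [btw_self hab]
    exact left_mem_btw _ _
  · exact hab
  · exact btw_symm hab
  · rw [btw_self hab]
    exact right_mem_btw _ _

theorem types (r : T.V) (γ : Finset (Finset (Fin n)))
    (hγ : ∀ C ∈ γ, ∀ D ∈ γ, C ≠ D → Disjoint (T.hull C) (T.hull D)) :
    ∃ τ : Fin n → Option (Finset (Fin n)), (∀ x C, τ x = some C → C ∈ γ) ∧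
      ∀ x y, τ x = τ y → ∀ D ∈ γ, τ x ≠ some D → Disjoint (T.hull {x, y}) (T.hull D) := by
  classical
  have key : ∀ x : Fin n, ∃ t : Option (Finset (Fin n)),
      (t = none ∧ ∀ D ∈ γ, Disjoint (btw T.G (T.leaf x) r) (T.hull D)) ∨
      ∃ C ∈ γ, t = some C ∧ ∃ v ∈ T.hull C, ∀ D ∈ γ, D ≠ C →
        Disjoint (btw T.G (T.leaf x) v) (T.hull D) := by
    intro x
    rcases exists_type T r γ hγ x with h | ⟨C, hC, v, hv, h⟩
    · exact ⟨none, Or.inl ⟨rfl, h⟩⟩
    · exact ⟨some C, Or.inr ⟨C, hC, rfl, v, hv, h⟩⟩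
  choose τ hτ using key
  refine ⟨τ, ?_, ?_⟩
  · intro x C hx
    rcases hτ x with ⟨h, -⟩ | ⟨C', hC', h, -⟩
    · rw [h] at hx
      cases hx
    · rw [h] at hx
      cases hx
      exact hC'
  · intro x y hxy D hD hne
    rw [Set.disjoint_left]
    intro w hw hwD
    have hw' := mem_hull_pair T hw
    rcases hτ x with ⟨h, hx⟩ | ⟨C, hC, h, v, hv, hx⟩
    · rcases hτ y with ⟨h', hy⟩ | ⟨C', hC', h', -⟩
      · rcases btw_trans r hw' with h1 | h1
        · exact Set.disjoint_left.1 (hx D hD) h1 hwD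
        · exact Set.disjoint_left.1 (hy D hD) (btw_symm h1) hwD
      · rw [← hxy, h] at h'
        cases h'
    · rcases hτ y with ⟨h', hy⟩ | ⟨C', hC', h', v', hv', hy⟩
      · rw [← hxy, h] at h'
        cases h'
      · rw [← hxy, h] at h'
        cases h'
        have hDC : D ≠ C := by
          rintro rfl
          exact hne h
        rcases btw_trans v hw' with h1 | h1
        · exact Set.disjoint_left.1 (hx D hD hDC) h1 hwD
        rcases btw_trans v' h1 with h2 | h2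
        · exact Set.disjoint_left.1 (hγ D hD C hC hDC) hwD (hull_convex T hv hv' h2)
        · exact Set.disjoint_left.1 (hy D hD hDC) (btw_symm h2) hwD

end Pool.Agent.Lib.MP_251106_co
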