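import Mathlib
import Pool.Agent.Lib.MP_251106_co.TreeSys

set_option autoImplicit false

/-!
# A vertex which splits a set of leaves
-/

namespace Pool.Agent.Lib.MP_251106_co

open SimpleGraph Finset

variable {n : ℕ} (T : PhyloTree n)

/-- The neighbour of `v` towards `u`. -/
theorem exists_step {V : Type} {G : SimpleGraph V} (hG : G.IsTree) {v u : V} (hne : v ≠ u) :
    ∃ w, G.Adj v w ∧ w ∈ btw G v u ∧ v ∉ btw G w u := by
  classical
  obtain ⟨p, hp⟩ := hG.connected.exists_isPath v u
  cases p with
  | nil => exact absurd rfl hne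
  | @cons _ w _ hadj q =>
    refine ⟨w, hadj, ?_, ?_⟩
    · refine mem_btw_of_isPath hG.isAcyclic _ hp ?_
      rw [Walk.support_cons]
      exact List.mem_cons_of_mem _ q.start_mem_support
    · intro h
      exact ((Walk.cons_isPath_iff _ _).1 hp).2 (h q)

theorem cut (x0 : Fin n) (X : Finset (Fin n)) (hX : 2 ≤ X.card) :
    ∃ A : Finset (Fin n), X.card ≤ 3 * (X ∩ A).card ∧ X.card ≤ 3 * (X \ A).card ∧
      ∀ C D : Finset (Fin n), C ⊆ A → Disjoint D A → Disjoint (T.hull C) (T.hull D) := by
  classical
  have hfin : Fintype T.V := Fintype.ofFinite _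
  set r : T.V := T.leaf x0 with hr
  set d : T.V → ℕ := fun v => (X.filter fun x => v ∈ btw T.G (T.leaf x) r).card with hd
  have hdr : d r = X.card := by
    simp only [hd]
    rw [Finset.filter_true_of_mem]
    intro x _
    exact right_mem_btw _ _
  obtain ⟨v, hv, hmax⟩ := (univ.filter fun v => X.card ≤ 3 * d v).exists_max_image
    (fun v => T.G.dist r v) ⟨r, by
      rw [Finset.mem_filter, hdr]
      exact ⟨Finset.mem_univ _, by omega⟩⟩
  rw [Finset.mem_filter] at hv
  set ch : Finset T.V := univ.filter fun w => T.G.Adj v w ∧ v ∈ btw T.G w r with hch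
  have hchd : ∀ w ∈ ch, 3 * d w ≤ X.card - 1 := by
    intro w hw
    rw [hch, Finset.mem_filter] at hw
    obtain ⟨-, hadj, hvw⟩ := hw
    by_contra hcon
    have h1 := hmax w (by
      rw [Finset.mem_filter]
      exact ⟨Finset.mem_univ _, by omega⟩)
    have h2 := dist_lt_of_btw (conn T) (btw_symm hvw) hadj.ne
    omega
  have hsum : 3 * ∑ w ∈ ch, d w ≤ ch.card * (X.card - 1) := by
    rw [Finset.mul_sum]
    refine (Finset.sum_le_sum hchd).trans ?_
    rw [Finset.sum_const, smul_eq_mul]
  -- the decomposition
  have hdec : (X.filter fun x => v ∈ btw T.G (T.leaf x) r) ⊆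
      (univ.filter fun x => T.leaf x = v) ∪
        ch.biUnion fun w => X.filter fun x => w ∈ btw T.G (T.leaf x) r := by
    intro x hx
    rw [Finset.mem_filter] at hx
    rw [Finset.mem_union]
    by_cases hxv : T.leaf x = v
    · left
      rw [Finset.mem_filter]
      exact ⟨Finset.mem_univ _, hxv⟩
    · right
      obtain ⟨w, hadj, hw, hvw⟩ := exists_step T.isTree (Ne.symm hxv)
      rw [Finset.mem_biUnion]
      refine ⟨w, ?_, ?_⟩
      · rw [hch, Finset.mem_filter]
        refine ⟨Finset.mem_univ _, hadj, ?_⟩
        rcases btw_trans w hx.2 with h | h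
        · exact absurd (btw_symm h) hvw
        · exact h
      · rw [Finset.mem_filter]
        exact ⟨hx.1, btw_sub_left hx.2 (btw_symm hw)⟩
  have hcard : d v ≤ (univ.filter fun x => T.leaf x = v).card + ∑ w ∈ ch, d w :=
    (Finset.card_le_card hdec).trans ((Finset.card_union_le _ _).trans
      (Nat.add_le_add_left Finset.card_biUnion_le _))
  have hleaf1 : (univ.filter fun x => T.leaf x = v).card ≤ 1 := by
    rw [Finset.card_le_one]
    intro a ha b hb
    rw [Finset.mem_filter] at ha hb
    exact T.leaf_injective (ha.2.trans hb.2.symm)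
  have hchN : ch ⊆ univ.filter fun w => T.G.Adj v w := by
    intro w hw
    rw [hch, Finset.mem_filter] at hw
    rw [Finset.mem_filter]
    exact ⟨hw.1, hw.2.1⟩
  have hN : (T.G.neighborSet v).ncard = (univ.filter fun w => T.G.Adj v w).card := by
    rw [Set.ncard_eq_toFinset_card']
    congr 1
    ext w
    simp
  have hmain : 3 * d v ≤ 2 * X.card := by
    by_cases hvr : v = r
    · have h1 : (T.G.neighborSet v).ncard = 1 := by rw [hvr, hr]; exact leaf_deg T x0
      have h2 : ch.card ≤ 1 := by
        rw [← h1, hN]
        exact Finset.card_le_card hchN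
      have h3 : ch.card * (X.card - 1) ≤ 1 * (X.card - 1) := Nat.mul_le_mul_right _ h2
      have h4 : d v = X.card := by rw [hvr]; exact hdr
      omega
    · obtain ⟨p, hp, -, hpr⟩ := exists_step T.isTree hvr
      have h0 : ch.card + 1 ≤ (T.G.neighborSet v).ncard := by
        rw [hN]
        have h1 : ch ⊆ (univ.filter fun w => T.G.Adj v w).erase p := by
          intro w hw
          rw [Finset.mem_erase]
          refine ⟨?_, hchN hw⟩
          rintro rfl
          rw [hch, Finset.mem_filter] at hw
          exact hpr hw.2.2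
        have h2 := Finset.card_le_card h1
        have h3 : p ∈ univ.filter fun w => T.G.Adj v w := by
          rw [Finset.mem_filter]
          exact ⟨Finset.mem_univ _, hp⟩
        rw [Finset.card_erase_of_mem h3] at h2
        have h4 := Finset.card_pos.2 ⟨p, h3⟩
        omega
      rcases T.degree v with h1 | h1
      · have h2 : ch.card = 0 := by omega
        rw [h2, Nat.zero_mul] at hsum
        omega
      · have h2 : ch.card ≤ 2 := by omega
        have h3 : ch.card * (X.card - 1) ≤ 2 * (X.card - 1) := Nat.mul_le_mul_right _ h2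
        have h4 : (univ.filter fun x => T.leaf x = v).card = 0 := by
          rw [Finset.card_eq_zero, Finset.filter_eq_empty_iff]
          intro x _ hx
          have h5 := (T.leaf_range v).1 ⟨x, hx⟩
          omega
        omega
  refine ⟨univ.filter fun x => v ∈ btw T.G (T.leaf x) r, ?_, ?_, ?_⟩
  · have h1 : X ∩ (univ.filter fun x => v ∈ btw T.G (T.leaf x) r) =
        X.filter fun x => v ∈ btw T.G (T.leaf x) r := by
      ext x
      simp
    rw [h1]
    exact hv.2
  · have h1 : (X \ (univ.filter fun x => v ∈ btw T.G (T.leaf x) r)).card + d v = X.card := by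
      have h2 : X \ (univ.filter fun x => v ∈ btw T.G (T.leaf x) r) =
          X \ X.filter fun x => v ∈ btw T.G (T.leaf x) r := by
        ext x
        simp only [Finset.mem_sdiff, Finset.mem_filter, Finset.mem_univ, true_and]
        tauto
      rw [h2]
      exact Finset.card_sdiff_add_card_eq_card (Finset.filter_subset _ _)
    omega
  · intro C D hC hD
    rw [Set.disjoint_left]
    intro w hw hw'
    obtain ⟨a, ha, b, hb, hab⟩ := (mem_hull T).1 hw
    obtain ⟨a', ha', b', hb', hab'⟩ := (mem_hull T).1 hw'
    have h1 : ∀ x ∈ C, v ∈ btw T.G (T.leaf x) r := fun x hx => by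
      have := hC hx
      rw [Finset.mem_filter] at this
      exact this.2
    have h2 : ∀ x ∈ D, v ∉ btw T.G (T.leaf x) r := fun x hx hcon =>
      Finset.disjoint_left.1 hD hx (by
        rw [Finset.mem_filter]
        exact ⟨Finset.mem_univ _, hcon⟩)
    exact btw_up (h2 a' ha') (h2 b' hb') hab' (btw_down (conn T) (h1 a ha) (h1 b hb) hab)

/-- The system of a tree. -/
def PhyloTree.sys (x0 : Fin n) : Sys n where
  sep C D := Disjoint (T.hull C) (T.hull D)
  up x C := (btw T.G (T.leaf x) (T.leaf x0) ∩ T.hull C).Nonempty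
  symm h := h.symm
  mono h h' := h'.mono_left (hull_mono T h)
  single h := sep_single T h
  disj h := by
    rw [Finset.disjoint_left]
    intro x hx hx'
    exact Set.disjoint_left.1 h (leaf_mem_hull T hx) (leaf_mem_hull T hx')
  up_unique h1 h2 h3 h4 := up_unique T h1 h2 h3 h4
  up_bad D hD := up_bad T _ D hD
  types γ hγ := types T (T.leaf x0) γ hγ
  cut X hX := cut T x0 X hX

end Pool.Agent.Lib.MP_251106_co
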