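import Mathlib
import Pool.Agent.Lib.MP_251106_co.Pat
import Pool.Agent.Lib.MP_251106_co.TreeCut

set_option autoImplicit false

/-!
# Common partitions and patterns
-/

namespace Pool.Agent.Lib.MP_251106_co

open Finset

variable {n : ℕ}

/-- the classes with at least two elements -/
def big (P : Finpartition (univ : Finset (Fin n))) : Finset (Finset (Fin n)) :=
  P.parts.filter fun C => 2 ≤ C.card

theorem mem_big {P : Finpartition (univ : Finset (Fin n))} {C : Finset (Fin n)} :
    C ∈ big P ↔ C ∈ P.parts ∧ 2 ≤ C.card := by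
  unfold big
  rw [Finset.mem_filter]

theorem card_pos_of_mem {P : Finpartition (univ : Finset (Fin n))} {C : Finset (Fin n)}
    (hC : C ∈ P.parts) : 0 < C.card :=
  Finset.card_pos.2 (P.nonempty_of_mem_parts hC)

theorem parts_card (P : Finpartition (univ : Finset (Fin n))) :
    exc (big P) + P.parts.card = n := by
  have h1 : ∑ C ∈ P.parts, C.card = n := by
    rw [P.sum_card_parts, Finset.card_univ, Fintype.card_fin]
  have h2 : exc (big P) = ∑ C ∈ P.parts, (C.card - 1) := by
    unfold exc big
    rw [Finset.sum_filter]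
    refine Finset.sum_congr rfl fun C hC => ?_
    split_ifs with h
    · rfl
    · omega
  rw [h2, Finset.card_eq_sum_ones, ← Finset.sum_add_distrib]
  refine Eq.trans ?_ h1
  refine Finset.sum_congr rfl fun C hC => ?_
  have := card_pos_of_mem hC
  omega

theorem eq_of_big_eq {P Q : Finpartition (univ : Finset (Fin n))} (h : big P = big Q) : P = Q := by
  have key : ∀ P Q : Finpartition (univ : Finset (Fin n)), big P = big Q →
      ∀ C ∈ P.parts, C ∈ Q.parts := by
    intro P Q h C hC
    by_cases h2 : 2 ≤ C.card
    · have : C ∈ big Q := by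
        rw [← h]
        exact mem_big.2 ⟨hC, h2⟩
      exact (mem_big.1 this).1
    · have h1 := card_pos_of_mem hC
      obtain ⟨x, hx⟩ := Finset.card_eq_one.1 (by omega : C.card = 1)
      obtain ⟨D, hD, hxD⟩ := Q.exists_mem (Finset.mem_univ x)
      by_cases hD2 : 2 ≤ D.card
      · have h3 : D ∈ big P := by
          rw [h]
          exact mem_big.2 ⟨hD, hD2⟩
        have h4 : C = D := P.eq_of_mem_parts hC (mem_big.1 h3).1 (by rw [hx]; simp) hxD
        rw [h4]
        exact hD
      · have h3 := card_pos_of_mem hD
        obtain ⟨y, hy⟩ := Finset.card_eq_one.1 (by omega : D.card = 1)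
        rw [hy, Finset.mem_singleton] at hxD
        rw [hx, hxD, ← hy]
        exact hD
  apply Finpartition.ext
  ext C
  exact ⟨key P Q h C, key Q P h.symm C⟩

/-- The partition with given classes with at least two elements. -/
def ofPat (γ : Finset (Finset (Fin n))) (h2 : ∀ C ∈ γ, 2 ≤ C.card)
    (hd : ∀ C ∈ γ, ∀ D ∈ γ, C ≠ D → Disjoint C D) : Finpartition (univ : Finset (Fin n)) where
  parts := γ ∪ (used γ)ᶜ.image fun x => {x}
  supIndep := by
    rw [Finset.supIndep_iff_pairwiseDisjoint]
    intro C hC D hD hne
    change Disjoint C D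
    rw [Finset.mem_coe, Finset.mem_union, Finset.mem_image] at hC hD
    rcases hC with hC | ⟨x, hx, rfl⟩
    · rcases hD with hD | ⟨y, hy, rfl⟩
      · exact hd C hC D hD hne
      · rw [Finset.disjoint_singleton_right]
        intro hyC
        rw [Finset.mem_compl, mem_used] at hy
        exact hy ⟨C, hC, hyC⟩
    · rcases hD with hD | ⟨y, hy, rfl⟩
      · rw [Finset.disjoint_singleton_left]
        intro hxD
        rw [Finset.mem_compl, mem_used] at hx
        exact hx ⟨D, hD, hxD⟩
      · rw [Finset.disjoint_singleton]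
        rintro rfl
        exact hne rfl
  sup_parts := by
    ext x
    rw [Finset.mem_sup]
    simp only [Finset.mem_univ, iff_true]
    by_cases hx : x ∈ used γ
    · obtain ⟨C, hC, hxC⟩ := mem_used.1 hx
      exact ⟨C, Finset.mem_union_left _ hC, hxC⟩
    · exact ⟨{x}, Finset.mem_union_right _ (Finset.mem_image.2 ⟨x, Finset.mem_compl.2 hx, rfl⟩),
        Finset.mem_singleton_self x⟩
  bot_notMem := by
    intro h
    rw [Finset.mem_union, Finset.mem_image] at h
    rcases h with h | ⟨x, -, h⟩
    · have := h2 _ h
      simp at this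
    · exact Finset.singleton_ne_empty x h

theorem big_ofPat (γ : Finset (Finset (Fin n))) (h2 : ∀ C ∈ γ, 2 ≤ C.card)
    (hd : ∀ C ∈ γ, ∀ D ∈ γ, C ≠ D → Disjoint C D) : big (ofPat γ h2 hd) = γ := by
  ext C
  rw [mem_big]
  constructor
  · rintro ⟨h, hC⟩
    change C ∈ γ ∪ (used γ)ᶜ.image (fun x => {x}) at h
    rw [Finset.mem_union, Finset.mem_image] at h
    rcases h with h | ⟨x, -, rfl⟩
    · exact h
    · simp at hC
  · intro h
    exact ⟨Finset.mem_union_left _ h, h2 C h⟩

theorem convex_iff (T : PhyloTree n) (P : Finpartition (univ : Finset (Fin n))) :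
    T.Convex P ↔ ∀ C ∈ big P, ∀ D ∈ big P, C ≠ D → Disjoint (T.hull C) (T.hull D) := by
  constructor
  · intro h C hC D hD hne
    exact h C (mem_big.1 hC).1 D (mem_big.1 hD).1 hne
  · intro h C hC D hD hne
    have hCD : Disjoint C D := P.disjoint hC hD hne
    by_cases h2 : 2 ≤ C.card
    · by_cases h2' : 2 ≤ D.card
      · exact h C (mem_big.2 ⟨hC, h2⟩) D (mem_big.2 ⟨hD, h2'⟩) hne
      · have := card_pos_of_mem hD
        obtain ⟨x, hx⟩ := Finset.card_eq_one.1 (by omega : D.card = 1)
        subst hx
        exact (sep_single T (Finset.disjoint_singleton_right.1 hCD)).symm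
    · have := card_pos_of_mem hC
      obtain ⟨x, hx⟩ := Finset.card_eq_one.1 (by omega : C.card = 1)
      subst hx
      exact sep_single T (Finset.disjoint_singleton_left.1 hCD)

open Classical in
/-- all patterns of excess `j` -/
noncomputable def allPats (S T : Sys n) (j : ℕ) : Finset (Finset (Finset (Fin n))) :=
  univ.filter fun γ => IsPat S T γ ∧ exc γ = j

theorem mem_allPats {S T : Sys n} {j : ℕ} {γ : Finset (Finset (Fin n))} :
    γ ∈ allPats S T j ↔ IsPat S T γ ∧ exc γ = j := by
  simp only [allPats, Finset.mem_filter, Finset.mem_univ, true_and]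

theorem common_eq (T F : PhyloTree n) (x0 : Fin n) {k : ℕ} (hk : k ≤ n) :
    common T F k = (allPats (T.sys x0) (F.sys x0) (n - k)).card := by
  rw [common, ← Set.ncard_coe_finset]
  refine Set.ncard_congr (fun P _ => big P) ?_ ?_ ?_
  · intro P hP
    obtain ⟨h1, h2, h3⟩ := hP
    rw [Finset.mem_coe, mem_allPats]
    refine ⟨⟨fun C hC => (mem_big.1 hC).2, ?_, ?_⟩, ?_⟩
    · exact (convex_iff T P).1 h1
    · exact (convex_iff F P).1 h2
    · have := parts_card P
      omega
  · intro P Q _ _ h
    exact eq_of_big_eq h
  · intro γ hγ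
    rw [Finset.mem_coe, mem_allPats] at hγ
    have hd : ∀ C ∈ γ, ∀ D ∈ γ, C ≠ D → Disjoint C D :=
      fun C hC D hD hne => hγ.1.disjoint hC hD hne
    refine ⟨ofPat γ hγ.1.two hd, ⟨?_, ?_, ?_⟩, big_ofPat _ _ _⟩
    · rw [convex_iff, big_ofPat]
      exact hγ.1.sepS
    · rw [convex_iff, big_ofPat]
      exact hγ.1.sepT
    · have := parts_card (ofPat γ hγ.1.two hd)
      rw [big_ofPat] at this
      omega

theorem allPats_card {S T : Sys n} {j : ℕ} (hj : 1 ≤ j) :
    (allPats S T j).card = (pats S T j).card + n.choose (j + 1) := by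
  classical
  have h1 : allPats S T j = pats S T j ∪ (powersetCard (j + 1) univ).image fun C => {C} := by
    ext γ
    rw [Finset.mem_union, mem_allPats, mem_pats, Finset.mem_image]
    constructor
    · rintro ⟨h1, h2⟩
      by_cases h3 : 2 ≤ γ.card
      · exact Or.inl ⟨h1, h2, h3⟩
      · right
        have h4 : γ.card ≠ 0 := by
          intro h0
          rw [Finset.card_eq_zero] at h0
          rw [h0] at h2
          unfold exc at h2
          simp at h2
          omega
        obtain ⟨C, hC⟩ := Finset.card_eq_one.1 (by omega : γ.card = 1)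
        refine ⟨C, ?_, hC.symm⟩
        rw [Finset.mem_powersetCard]
        refine ⟨Finset.subset_univ _, ?_⟩
        have h5 := h1.two C (by rw [hC]; simp)
        rw [hC] at h2
        unfold exc at h2
        rw [Finset.sum_singleton] at h2
        omega
    · rintro (⟨h1, h2, -⟩ | ⟨C, hC, rfl⟩)
      · exact ⟨h1, h2⟩
      · rw [Finset.mem_powersetCard] at hC
        refine ⟨⟨?_, ?_, ?_⟩, ?_⟩
        · intro D hD
          rw [Finset.mem_singleton] at hD
          subst hD
          omega
        · intro D hD E hE hne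
          rw [Finset.mem_singleton] at hD hE
          exact absurd (hD.trans hE.symm) hne
        · intro D hD E hE hne
          rw [Finset.mem_singleton] at hD hE
          exact absurd (hD.trans hE.symm) hne
        · unfold exc
          rw [Finset.sum_singleton]
          omega
  rw [h1, Finset.card_union_of_disjoint, Finset.card_image_of_injective,
    Finset.card_powersetCard, Finset.card_univ, Fintype.card_fin]
  · intro C D h
    exact Finset.singleton_injective h
  · rw [Finset.disjoint_left]
    intro γ hγ hγ'
    rw [Finset.mem_image] at hγ'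
    obtain ⟨C, -, rfl⟩ := hγ'
    have := (mem_pats.1 hγ).2.2
    simp at this

/-- The number of common partitions is the number of non-trivial patterns plus the number of
trivial partitions. -/
theorem common_eq' (T F : PhyloTree n) (x0 : Fin n) {k : ℕ} (hk1 : 1 ≤ k) (hk : k + 1 ≤ n) :
    common T F k = (pats (T.sys x0) (F.sys x0) (n - k)).card + n.choose (k - 1) := by
  rw [common_eq T F x0 (by omega), allPats_card (by omega)]
  congr 1
  rw [← Nat.choose_symm (by omega : n - k + 1 ≤ n)]
  congr 1
  omega

end Pool.Agent.Lib.MP_251106_co
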