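import Mathlib
import Pool.Agent.Lib.MP_251106_co.Pat

set_option autoImplicit false

/-!
# A large cell which is blocked by at most two classes
-/

namespace Pool.Agent.Lib.MP_251106_co

open Finset

variable {n : ℕ} {S T : Sys n}

/-- For a pattern `γ` there are a set `X` of unused leaves and at most two sets of `γ` such that
the pairs in `X` are separated from all other sets of `γ`. -/
theorem exists_cell {γ : Finset (Finset (Fin n))} (h : IsPat S T γ) :
    ∃ (R : Finset (Finset (Fin n))) (X : Finset (Fin n)), R ⊆ γ ∧ R.card ≤ 2 ∧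
      Disjoint X (used γ) ∧ n ≤ (used γ).card + X.card * (γ.card + 1) ^ 2 ∧
      ∀ x ∈ X, ∀ y ∈ X, ∀ D ∈ γ, D ∉ R → S.sep {x, y} D ∧ T.sep {x, y} D := by
  classical
  obtain ⟨τ, hτ1, hτ2⟩ := S.types γ h.sepS
  obtain ⟨ρ, hρ1, hρ2⟩ := T.types γ h.sepT
  set t : Finset (Option (Finset (Fin n))) := Insert.insert none (γ.image some) with ht
  have htcard : t.card = γ.card + 1 := by
    rw [ht, Finset.card_insert_of_notMem (by simp), Finset.card_image_of_injective _
      (Option.some_injective _)]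
  have hmem : ∀ (σ : Fin n → Option (Finset (Fin n))), (∀ x C, σ x = some C → C ∈ γ) →
      ∀ x, σ x ∈ t := by
    intro σ hσ x
    rw [ht, Finset.mem_insert, Finset.mem_image]
    cases hx : σ x with
    | none => exact Or.inl rfl
    | some C => exact Or.inr ⟨C, hσ x C hx, rfl⟩
  have hmaps : ∀ x ∈ (used γ)ᶜ, (τ x, ρ x) ∈ t ×ˢ t := fun x _ =>
    Finset.mem_product.2 ⟨hmem τ hτ1 x, hmem ρ hρ1 x⟩
  have hne : (t ×ˢ t).Nonempty := by
    refine ⟨(none, none), Finset.mem_product.2 ⟨?_, ?_⟩⟩ <;>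
    exact Finset.mem_insert_self _ _
  have hpos : (0 : ℚ) < ((t ×ˢ t).card : ℚ) := by
    exact_mod_cast Finset.card_pos.2 hne
  obtain ⟨⟨u, v⟩, -, huv⟩ := Finset.exists_le_card_fiber_of_nsmul_le_card_of_maps_to hmaps hne
    (b := (((used γ)ᶜ.card : ℚ) / ((t ×ˢ t).card : ℚ))) (by
      rw [nsmul_eq_mul, mul_div_cancel₀ _ hpos.ne'])
  set X := (used γ)ᶜ.filter fun x => (τ x, ρ x) = (u, v) with hX
  refine ⟨γ.filter fun D => some D = u ∨ some D = v, X, Finset.filter_subset _ _, ?_, ?_, ?_, ?_⟩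
  · have h1 : ∀ w : Option (Finset (Fin n)), (γ.filter fun D => some D = w).card ≤ 1 := by
      intro w
      rw [Finset.card_le_one]
      intro a ha b hb
      rw [Finset.mem_filter] at ha hb
      exact Option.some_injective _ (ha.2.trans hb.2.symm)
    rw [Finset.filter_or]
    refine (Finset.card_union_le _ _).trans ?_
    have := h1 u
    have := h1 v
    omega
  · rw [Finset.disjoint_left]
    intro x hx hx'
    rw [hX, Finset.mem_filter, Finset.mem_compl] at hx
    exact hx.1 hx'
  · rw [div_le_iff₀ hpos, Finset.card_product, htcard] at huv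
    have h1 : ((used γ)ᶜ.card : ℕ) ≤ X.card * ((γ.card + 1) * (γ.card + 1)) := by
      exact_mod_cast huv
    rw [Finset.card_compl, Fintype.card_fin] at h1
    rw [pow_two]
    omega
  · intro x hx y hy D hD hDR
    rw [hX, Finset.mem_filter, Prod.mk.injEq] at hx hy
    rw [Finset.mem_filter] at hDR
    push Not at hDR
    obtain ⟨h1, h2⟩ := hDR hD
    refine ⟨hτ2 x y (hx.2.1.trans hy.2.1.symm) D hD ?_, hρ2 x y (hx.2.2.trans hy.2.2.symm) D hD ?_⟩
    · rw [hx.2.1]
      exact fun h => h1 h.symm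
    · rw [hx.2.2]
      exact fun h => h2 h.symm

end Pool.Agent.Lib.MP_251106_co
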