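import Mathlib
import Pool.Agent.Lib.MP_251106_co.Pat

set_option autoImplicit false

/-!
# An upper bound of the growth
-/

namespace Pool.Agent.Lib.MP_251106_co

open Finset

variable {n : ℕ} {S T : Sys n}

open Classical in
/-- join `x` to the set of `y` -/
noncomputable def join (t : Finset (Finset (Fin n)) × Fin n × Fin n) : Finset (Finset (Fin n)) :=
  Insert.insert (Insert.insert t.2.1 (used (t.1.filter fun C => t.2.2 ∈ C) ∪ {t.2.2}))
    (t.1.filter fun C => t.2.2 ∉ C)

theorem join_big {γ : Finset (Finset (Fin n))} (h : IsPat S T γ) {C : Finset (Fin n)} (hC : C ∈ γ)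
    {x y : Fin n} (hx : x ∈ C) (hy : y ∈ C) (hxy : y ≠ x) :
    join (Insert.insert (C.erase x) (γ.erase C), x, y) = γ := by
  classical
  have hyC : y ∈ C.erase x := Finset.mem_erase.2 ⟨hxy, hy⟩
  have hn : ∀ D ∈ γ.erase C, y ∉ D := by
    intro D hD hyD
    rw [Finset.mem_erase] at hD
    exact Finset.disjoint_left.1 (h.disjoint hC hD.2 hD.1.symm) hy hyD
  have f1 : (Insert.insert (C.erase x) (γ.erase C)).filter (fun D => y ∈ D) = {C.erase x} := by
    ext D
    rw [Finset.mem_filter, Finset.mem_insert, Finset.mem_singleton]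
    constructor
    · rintro ⟨h1 | h1, h2⟩
      · exact h1
      · exact absurd h2 (hn D h1)
    · rintro rfl
      exact ⟨Or.inl rfl, hyC⟩
  have f2 : (Insert.insert (C.erase x) (γ.erase C)).filter (fun D => y ∉ D) = γ.erase C := by
    ext D
    rw [Finset.mem_filter, Finset.mem_insert]
    constructor
    · rintro ⟨h1 | h1, h2⟩
      · rw [h1] at h2
        exact absurd hyC h2
      · exact h1
    · intro h1
      exact ⟨Or.inr h1, hn D h1⟩
  unfold join
  simp only
  rw [f1, f2]
  have f3 : used ({C.erase x} : Finset (Finset (Fin n))) = C.erase x := by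
    unfold used
    rw [Finset.singleton_biUnion]
    rfl
  rw [f3, Finset.union_eq_left.2 (Finset.singleton_subset_iff.2 hyC), Finset.insert_erase hx,
    Finset.insert_erase hC]

theorem join_pair {γ : Finset (Finset (Fin n))} (h : IsPat S T γ) {x y : Fin n}
    (hC : {x, y} ∈ γ) : join (γ.erase {x, y}, x, y) = γ := by
  classical
  have hn : ∀ D ∈ γ.erase {x, y}, y ∉ D := by
    intro D hD hyD
    rw [Finset.mem_erase] at hD
    exact Finset.disjoint_left.1 (h.disjoint hC hD.2 hD.1.symm) (by simp) hyD
  have f1 : (γ.erase {x, y}).filter (fun D => y ∈ D) = ∅ := by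
    rw [Finset.filter_eq_empty_iff]
    exact fun D hD => hn D hD
  have f2 : (γ.erase {x, y}).filter (fun D => y ∉ D) = γ.erase {x, y} :=
    Finset.filter_true_of_mem hn
  unfold join
  simp only
  rw [f1, f2]
  have f3 : used (∅ : Finset (Finset (Fin n))) = ∅ := by
    unfold used
    rw [Finset.biUnion_empty]
  rw [f3, Finset.empty_union, Finset.insert_erase hC]

/-- **The upper bound.** -/
theorem child_main (S T : Sys n) {j : ℕ} (hj : 2 ≤ j) :
    (pats S T (j + 1)).card ≤ n ^ 2 * (pats S T j).card := by
  classical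
  have h1 : pats S T (j + 1) ⊆
      (pats S T j ×ˢ (univ : Finset (Fin n × Fin n))).image join := by
    intro γ hγ
    obtain ⟨h1, h2, h3⟩ := mem_pats.1 hγ
    rw [Finset.mem_image]
    by_cases h4 : ∃ C ∈ γ, 3 ≤ C.card
    · obtain ⟨C, hC, hC3⟩ := h4
      obtain ⟨x, hx⟩ := Finset.card_pos.1 (by omega : 0 < C.card)
      obtain ⟨y, hy⟩ := Finset.card_pos.1
        (by rw [Finset.card_erase_of_mem hx]; omega : 0 < (C.erase x).card)
      rw [Finset.mem_erase] at hy
      obtain ⟨a1, a2, a3, a4⟩ := h1.split hC hC3 hx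
      refine ⟨(Insert.insert (C.erase x) (γ.erase C), x, y), ?_, join_big h1 hC hx hy.2 hy.1⟩
      rw [Finset.mem_product]
      refine ⟨mem_pats.2 ⟨a1, ?_, ?_⟩, Finset.mem_univ _⟩
      · simp only
        omega
      · simp only
        omega
    · push Not at h4
      have h5 : ∀ C ∈ γ, C.card = 2 := fun C hC => by
        have := h4 C hC
        have := h1.two C hC
        omega
      have h6 : γ.card = j + 1 := by
        rw [← h2]
        unfold exc
        rw [Finset.card_eq_sum_ones]
        exact Finset.sum_congr rfl fun C hC => by rw [h5 C hC]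
      obtain ⟨C, hC⟩ := Finset.card_pos.1 (by omega : 0 < γ.card)
      obtain ⟨x, y, hxy, rfl⟩ := Finset.card_eq_two.1 (h5 C hC)
      refine ⟨(γ.erase {x, y}, x, y), ?_, join_pair h1 hC⟩
      rw [Finset.mem_product]
      refine ⟨mem_pats.2 ⟨h1.subset (Finset.erase_subset _ _), ?_, ?_⟩, Finset.mem_univ _⟩
      · have := exc_erase hC
        rw [h5 _ hC] at this
        simp only
        omega
      · simp only
        rw [Finset.card_erase_of_mem hC]
        omega
  refine (Finset.card_le_card h1).trans (Finset.card_image_le.trans ?_)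
  rw [Finset.card_product, Finset.card_univ, Fintype.card_prod, Fintype.card_fin]
  exact le_of_eq (by ring)

end Pool.Agent.Lib.MP_251106_co
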