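import Mathlib
import Pool.Agent.Lib.MP_251106_co.Pat

set_option autoImplicit false

/-!
# Many families of pairs
-/

namespace Pool.Agent.Lib.MP_251106_co

open Finset

variable {n : ℕ} {S T : Sys n}

open Classical in
/-- families of `e` pairs inside of `X` -/
noncomputable def confs (S T : Sys n) (X : Finset (Fin n)) (e : ℕ) :
    Finset (Finset (Finset (Fin n))) :=
  univ.filter fun δ => IsPat S T δ ∧ δ.card = e ∧ ∀ p ∈ δ, p.card = 2 ∧ p ⊆ X

theorem mem_confs {X : Finset (Fin n)} {e : ℕ} {δ : Finset (Finset (Fin n))} :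
    δ ∈ confs S T X e ↔ IsPat S T δ ∧ δ.card = e ∧ ∀ p ∈ δ, p.card = 2 ∧ p ⊆ X := by
  simp only [confs, Finset.mem_filter, Finset.mem_univ, true_and]

theorem exists_split (S T : Sys n) (X : Finset (Fin n)) (hX : 2 ≤ X.card) :
    ∃ X₁ X₂ : Finset (Fin n), X₁ ⊆ X ∧ X₂ ⊆ X ∧ Disjoint X₁ X₂ ∧ X.card ≤ 6 * X₁.card ∧
      X.card ≤ 6 * X₂.card ∧ ∀ C D : Finset (Fin n), C ⊆ X₁ → D ⊆ X₂ → S.sep C D ∧ T.sep C D := by
  obtain ⟨A, hA1, hA2, hA⟩ := S.cut X hX
  obtain ⟨B, hB1, hB2, hB⟩ := T.cut X hX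
  have e1 : ((X ∩ A) ∩ B).card + ((X ∩ A) \ B).card = (X ∩ A).card :=
    Finset.card_inter_add_card_sdiff _ _
  have e2 : ((X \ A) ∩ B).card + ((X \ A) \ B).card = (X \ A).card :=
    Finset.card_inter_add_card_sdiff _ _
  have e3 : ((X ∩ B) ∩ A).card + ((X ∩ B) \ A).card = (X ∩ B).card :=
    Finset.card_inter_add_card_sdiff _ _
  have e4 : ((X \ B) ∩ A).card + ((X \ B) \ A).card = (X \ B).card :=
    Finset.card_inter_add_card_sdiff _ _
  have f1 : (X ∩ B) ∩ A = (X ∩ A) ∩ B := by
    ext x; simp only [Finset.mem_inter]; tauto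
  have f2 : (X ∩ B) \ A = (X \ A) ∩ B := by
    ext x; simp only [Finset.mem_inter, Finset.mem_sdiff]; tauto
  have f3 : (X \ B) ∩ A = (X ∩ A) \ B := by
    ext x; simp only [Finset.mem_inter, Finset.mem_sdiff]; tauto
  have f4 : (X \ B) \ A = (X \ A) \ B := by
    ext x; simp only [Finset.mem_sdiff]; tauto
  rw [f1, f2] at e3
  rw [f3, f4] at e4
  have hor : (X.card ≤ 6 * ((X ∩ A) ∩ B).card ∧ X.card ≤ 6 * ((X \ A) \ B).card) ∨
      (X.card ≤ 6 * ((X ∩ A) \ B).card ∧ X.card ≤ 6 * ((X \ A) ∩ B).card) := by omega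
  have dA : ∀ D : Finset (Fin n), D ⊆ X \ A → Disjoint D A := fun D hD =>
    Finset.disjoint_of_subset_left hD Finset.sdiff_disjoint
  rcases hor with ⟨h1, h2⟩ | ⟨h1, h2⟩
  · refine ⟨(X ∩ A) ∩ B, (X \ A) \ B, Finset.inter_subset_left.trans Finset.inter_subset_left,
      Finset.sdiff_subset.trans Finset.sdiff_subset, ?_, h1, h2, ?_⟩
    · rw [Finset.disjoint_left]
      intro x hx hx'
      simp only [Finset.mem_inter, Finset.mem_sdiff] at hx hx'
      tauto
    · intro C D hC hD
      refine ⟨hA C D ?_ ?_, hB C D ?_ ?_⟩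
      · intro x hx
        have := hC hx
        simp only [Finset.mem_inter] at this
        exact this.1.2
      · exact dA D (hD.trans Finset.sdiff_subset)
      · intro x hx
        have := hC hx
        simp only [Finset.mem_inter] at this
        exact this.2
      · exact Finset.disjoint_of_subset_left hD Finset.sdiff_disjoint
  · refine ⟨(X ∩ A) \ B, (X \ A) ∩ B, Finset.sdiff_subset.trans Finset.inter_subset_left,
      Finset.inter_subset_left.trans Finset.sdiff_subset, ?_, h1, h2, ?_⟩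
    · rw [Finset.disjoint_left]
      intro x hx hx'
      simp only [Finset.mem_inter, Finset.mem_sdiff] at hx hx'
      tauto
    · intro C D hC hD
      refine ⟨hA C D ?_ ?_, T.symm (hB D C ?_ ?_)⟩
      · intro x hx
        have := hC hx
        simp only [Finset.mem_inter, Finset.mem_sdiff] at this
        exact this.1.2
      · exact dA D (hD.trans Finset.inter_subset_left)
      · intro x hx
        have := hD hx
        simp only [Finset.mem_inter] at this
        exact this.2
      · exact Finset.disjoint_of_subset_left hC Finset.sdiff_disjoint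

theorem confs_mul (X X₁ X₂ : Finset (Fin n)) (h1 : X₁ ⊆ X) (h2 : X₂ ⊆ X) (hd : Disjoint X₁ X₂)
    (hsep : ∀ C D : Finset (Fin n), C ⊆ X₁ → D ⊆ X₂ → S.sep C D ∧ T.sep C D) (e₁ e₂ : ℕ) :
    (confs S T X₁ e₁).card * (confs S T X₂ e₂).card ≤ (confs S T X (e₁ + e₂)).card := by
  classical
  rw [← Finset.card_product]
  have hnot : ∀ p : Finset (Fin n), p.card = 2 → p ⊆ X₁ → ¬ p ⊆ X₂ := by
    intro p hp hp1 hp2
    obtain ⟨x, hx⟩ := Finset.card_pos.1 (by omega : 0 < p.card)
    exact Finset.disjoint_left.1 hd (hp1 hx) (hp2 hx)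
  refine Finset.card_le_card_of_injOn (fun t => t.1 ∪ t.2) ?_ ?_
  · rintro ⟨δ₁, δ₂⟩ ht
    rw [Finset.mem_coe, Finset.mem_product] at ht
    obtain ⟨⟨a1, a2, a3⟩, ⟨b1, b2, b3⟩⟩ := And.intro (mem_confs.1 ht.1) (mem_confs.1 ht.2)
    simp only at a1 a2 a3 b1 b2 b3
    rw [Finset.mem_coe, mem_confs]
    refine ⟨⟨?_, ?_, ?_⟩, ?_, ?_⟩
    · intro C hC
      rcases Finset.mem_union.1 hC with h | h
      · exact a1.two C h
      · exact b1.two C h
    · intro C hC D hD hne
      rcases Finset.mem_union.1 hC with h | h <;> rcases Finset.mem_union.1 hD with h' | h'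
      · exact a1.sepS C h D h' hne
      · exact (hsep C D (a3 C h).2 (b3 D h').2).1
      · exact S.symm (hsep D C (a3 D h').2 (b3 C h).2).1
      · exact b1.sepS C h D h' hne
    · intro C hC D hD hne
      rcases Finset.mem_union.1 hC with h | h <;> rcases Finset.mem_union.1 hD with h' | h'
      · exact a1.sepT C h D h' hne
      · exact (hsep C D (a3 C h).2 (b3 D h').2).2
      · exact T.symm (hsep D C (a3 D h').2 (b3 C h).2).2
      · exact b1.sepT C h D h' hne
    · simp only
      rw [Finset.card_union_of_disjoint, a2, b2]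
      rw [Finset.disjoint_left]
      intro p hp hp'
      exact hnot p (a3 p hp).1 (a3 p hp).2 (b3 p hp').2
    · intro p hp
      rcases Finset.mem_union.1 hp with h | h
      · exact ⟨(a3 p h).1, (a3 p h).2.trans h1⟩
      · exact ⟨(b3 p h).1, (b3 p h).2.trans h2⟩
  · rintro ⟨δ₁, δ₂⟩ ht ⟨δ₁', δ₂'⟩ ht' he
    rw [Finset.mem_coe, Finset.mem_product] at ht ht'
    obtain ⟨a1, a2, a3⟩ := mem_confs.1 ht.1
    obtain ⟨b1, b2, b3⟩ := mem_confs.1 ht.2
    obtain ⟨a1', a2', a3'⟩ := mem_confs.1 ht'.1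
    obtain ⟨b1', b2', b3'⟩ := mem_confs.1 ht'.2
    simp only at a3 b3 a3' b3' he
    have k1 : ∀ p, p ∈ δ₁ ↔ p ∈ δ₁' := by
      intro p
      constructor
      · intro hp
        have : p ∈ δ₁' ∪ δ₂' := by
          rw [← he]
          exact Finset.mem_union_left _ hp
        rcases Finset.mem_union.1 this with h | h
        · exact h
        · exact absurd (b3' p h).2 (hnot p (a3 p hp).1 (a3 p hp).2)
      · intro hp
        have : p ∈ δ₁ ∪ δ₂ := by
          rw [he]
          exact Finset.mem_union_left _ hp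
        rcases Finset.mem_union.1 this with h | h
        · exact h
        · exact absurd (b3 p h).2 (hnot p (a3' p hp).1 (a3' p hp).2)
    have k2 : ∀ p, p ∈ δ₂ ↔ p ∈ δ₂' := by
      intro p
      constructor
      · intro hp
        have : p ∈ δ₁' ∪ δ₂' := by
          rw [← he]
          exact Finset.mem_union_right _ hp
        rcases Finset.mem_union.1 this with h | h
        · exact absurd (b3 p hp).2 (hnot p (a3' p h).1 (a3' p h).2)
        · exact h
      · intro hp
        have : p ∈ δ₁ ∪ δ₂ := by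
          rw [he]
          exact Finset.mem_union_right _ hp
        rcases Finset.mem_union.1 this with h | h
        · exact absurd (b3' p hp).2 (hnot p (a3 p h).1 (a3 p h).2)
        · exact h
    rw [Prod.mk.injEq]
    exact ⟨Finset.ext k1, Finset.ext k2⟩

theorem confs_one (S T : Sys n) (X : Finset (Fin n)) : X.card.choose 2 ≤ (confs S T X 1).card := by
  classical
  rw [← Finset.card_powersetCard]
  refine Finset.card_le_card_of_injOn (fun p => {p}) ?_ ?_
  · intro p hp
    rw [Finset.mem_coe, Finset.mem_powersetCard] at hp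
    rw [Finset.mem_coe, mem_confs]
    refine ⟨⟨?_, ?_, ?_⟩, Finset.card_singleton _, ?_⟩
    · intro C hC
      rw [Finset.mem_singleton] at hC
      rw [hC, hp.2]
    · intro C hC D hD hne
      rw [Finset.mem_singleton] at hC hD
      exact absurd (hC.trans hD.symm) hne
    · intro C hC D hD hne
      rw [Finset.mem_singleton] at hC hD
      exact absurd (hC.trans hD.symm) hne
    · intro q hq
      rw [Finset.mem_singleton] at hq
      rw [hq]
      exact ⟨hp.2, hp.1⟩
  · intro p _ q _ h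
    exact Finset.singleton_injective h

theorem sq_le_choose {m : ℕ} (hm : 2 ≤ m) : m ^ 2 ≤ m.choose 2 * 4 := by
  obtain ⟨k, rfl⟩ : ∃ k, m = k + 2 := ⟨m - 2, by omega⟩
  have h := Nat.triangle_succ (k + 1)
  have h1 : (k + 2).choose 2 * 2 = (k + 2) * (k + 1) := by
    rw [Nat.choose_two_right]
    have h2 : 2 ∣ (k + 2) * (k + 2 - 1) := (Nat.even_mul_pred_self (k + 2)).two_dvd
    rw [Nat.div_mul_cancel h2]
    rfl
  nlinarith

/-- **Many families of pairs.** -/
theorem confs_bound (S T : Sys n) : ∀ (c e : ℕ) (X : Finset (Fin n)), 1 ≤ e → e ≤ 2 ^ c →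
    2 * 6 ^ c ≤ X.card → X.card ^ (2 * e) ≤ (confs S T X e).card * (2 * 6 ^ c) ^ (2 * e) := by
  have hone : ∀ (c : ℕ) (X : Finset (Fin n)), 2 ≤ X.card →
      X.card ^ (2 * 1) ≤ (confs S T X 1).card * (2 * 6 ^ c) ^ (2 * 1) := by
    intro c X hX
    have h1 := sq_le_choose hX
    have h2 := confs_one S T X
    have h3 : 4 ≤ (2 * 6 ^ c) ^ 2 := by
      have : 1 ≤ 6 ^ c := Nat.one_le_pow _ _ (by norm_num)
      nlinarith
    rw [mul_one]
    exact h1.trans (Nat.mul_le_mul h2 h3)
  intro c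
  induction c with
  | zero =>
    intro e X he1 he2 hX
    have : e = 1 := by
      rw [pow_zero] at he2
      omega
    subst this
    exact hone 0 X (by simpa using hX)
  | succ c ih =>
    intro e X he1 he2 hX
    have h6 : 1 ≤ 6 ^ c := Nat.one_le_pow _ _ (by norm_num)
    have hX2 : 2 ≤ X.card := by
      rw [pow_succ] at hX
      omega
    rcases Nat.lt_or_ge e 2 with h | h
    · have : e = 1 := by omega
      subst this
      exact hone _ X hX2
    · obtain ⟨X₁, X₂, s1, s2, hd, c1, c2, hsep⟩ := exists_split S T X hX2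
      have l1 : 2 * 6 ^ c ≤ X₁.card := by
        rw [pow_succ] at hX
        omega
      have l2 : 2 * 6 ^ c ≤ X₂.card := by
        rw [pow_succ] at hX
        omega
      rw [pow_succ] at he2
      have i1 := ih ((e + 1) / 2) X₁ (by omega) (by omega) l1
      have i2 := ih (e / 2) X₂ (by omega) (by omega) l2
      have hm := confs_mul (S := S) (T := T) X X₁ X₂ s1 s2 hd hsep ((e + 1) / 2) (e / 2)
      have hee : (e + 1) / 2 + e / 2 = e := by omega
      rw [hee] at hm
      have hsplit : 2 * e = 2 * ((e + 1) / 2) + 2 * (e / 2) := by omega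
      have hh : 2 * 6 ^ (c + 1) = 6 * (2 * 6 ^ c) := by rw [pow_succ]; ring
      calc X.card ^ (2 * e) = X.card ^ (2 * ((e + 1) / 2)) * X.card ^ (2 * (e / 2)) := by
            rw [← pow_add, ← hsplit]
        _ ≤ (6 * X₁.card) ^ (2 * ((e + 1) / 2)) * (6 * X₂.card) ^ (2 * (e / 2)) :=
            Nat.mul_le_mul (Nat.pow_le_pow_left c1 _) (Nat.pow_le_pow_left c2 _)
        _ = 6 ^ (2 * ((e + 1) / 2)) * 6 ^ (2 * (e / 2)) *
            (X₁.card ^ (2 * ((e + 1) / 2)) * X₂.card ^ (2 * (e / 2))) := by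
            rw [mul_pow, mul_pow]; ring
        _ ≤ 6 ^ (2 * ((e + 1) / 2)) * 6 ^ (2 * (e / 2)) *
            (((confs S T X₁ ((e + 1) / 2)).card * (2 * 6 ^ c) ^ (2 * ((e + 1) / 2))) *
              ((confs S T X₂ (e / 2)).card * (2 * 6 ^ c) ^ (2 * (e / 2)))) :=
            Nat.mul_le_mul_left _ (Nat.mul_le_mul i1 i2)
        _ = ((confs S T X₁ ((e + 1) / 2)).card * (confs S T X₂ (e / 2)).card) *
            ((6 * (2 * 6 ^ c)) ^ (2 * ((e + 1) / 2)) * (6 * (2 * 6 ^ c)) ^ (2 * (e / 2))) := by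
            rw [mul_pow 6 (2 * 6 ^ c) (2 * ((e + 1) / 2)), mul_pow 6 (2 * 6 ^ c) (2 * (e / 2))]
            ring
        _ = ((confs S T X₁ ((e + 1) / 2)).card * (confs S T X₂ (e / 2)).card) *
            (2 * 6 ^ (c + 1)) ^ (2 * e) := by
            rw [← pow_add, ← hsplit, hh]
        _ ≤ (confs S T X e).card * (2 * 6 ^ (c + 1)) ^ (2 * e) := Nat.mul_le_mul_right _ hm

end Pool.Agent.Lib.MP_251106_co
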