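import Mathlib
import Pool.Agent.Lib.MP_251106_co.Conf

set_option autoImplicit false

/-!
# Replace at most two classes by more pairs
-/

namespace Pool.Agent.Lib.MP_251106_co

open Finset

variable {n : ℕ} {S T : Sys n}

/-- the families which may be removed -/
def RR (n t e : ℕ) : Finset (Finset (Finset (Fin n))) :=
  univ.filter fun R => (∀ C ∈ R, 2 ≤ C.card) ∧ R.card = t ∧ exc R = e

theorem mem_RR {t e : ℕ} {R : Finset (Finset (Fin n))} :
    R ∈ RR n t e ↔ (∀ C ∈ R, 2 ≤ C.card) ∧ R.card = t ∧ exc R = e := by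
  simp only [RR, Finset.mem_filter, Finset.mem_univ, true_and]

theorem RR_card {t e : ℕ} (hn : 1 ≤ n) (ht : t ≤ 2) : (RR n t e).card ≤ (2 * n) ^ (e + t) := by
  classical
  obtain rfl | rfl | rfl : t = 0 ∨ t = 1 ∨ t = 2 := by omega
  · have h1 : RR n 0 e ⊆ {∅} := by
      intro R hR
      rw [mem_RR] at hR
      rw [Finset.mem_singleton, ← Finset.card_eq_zero]
      exact hR.2.1
    refine (Finset.card_le_card h1).trans ?_
    rw [Finset.card_singleton]
    exact Nat.one_le_pow _ _ (by omega)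
  · have h1 : RR n 1 e ⊆ (powersetCard (e + 1) univ).image fun C => {C} := by
      intro R hR
      rw [mem_RR] at hR
      obtain ⟨C, rfl⟩ := Finset.card_eq_one.1 hR.2.1
      rw [Finset.mem_image]
      refine ⟨C, ?_, rfl⟩
      rw [Finset.mem_powersetCard]
      refine ⟨Finset.subset_univ _, ?_⟩
      have h2 := hR.1 C (Finset.mem_singleton_self _)
      have h3 := hR.2.2
      unfold exc at h3
      rw [Finset.sum_singleton] at h3
      omega
    refine (Finset.card_le_card h1).trans (Finset.card_image_le.trans ?_)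
    rw [Finset.card_powersetCard, Finset.card_univ, Fintype.card_fin]
    exact (Nat.choose_le_pow _ _).trans (Nat.pow_le_pow_left (by omega) _)
  · have h1 : RR n 2 e ⊆ (powersetCard (e + 2) (univ : Finset (Fin n ⊕ Fin n))).image
        fun E => {E.toLeft, E.toRight} := by
      intro R hR
      rw [mem_RR] at hR
      obtain ⟨C, D, hne, rfl⟩ := Finset.card_eq_two.1 hR.2.1
      rw [Finset.mem_image]
      refine ⟨C.disjSum D, ?_, ?_⟩
      · rw [Finset.mem_powersetCard]
        refine ⟨Finset.subset_univ _, ?_⟩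
        rw [Finset.card_disjSum]
        have h2 := hR.1 C (Finset.mem_insert_self _ _)
        have h2' := hR.1 D (Finset.mem_insert_of_mem (Finset.mem_singleton_self _))
        have h3 := hR.2.2
        unfold exc at h3
        rw [Finset.sum_pair hne] at h3
        omega
      · rw [Finset.toLeft_disjSum, Finset.toRight_disjSum]
    refine (Finset.card_le_card h1).trans (Finset.card_image_le.trans ?_)
    rw [Finset.card_powersetCard, Finset.card_univ, Fintype.card_sum, Fintype.card_fin]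
    refine (Nat.choose_le_pow _ _).trans (le_of_eq ?_)
    congr 1
    omega

/-- what is needed of the removed family and of the cell -/
structure IsCell (S T : Sys n) (γ R : Finset (Finset (Fin n))) (X : Finset (Fin n)) : Prop where
  sub : R ⊆ γ
  disj : Disjoint X (used γ)
  sep : ∀ x ∈ X, ∀ y ∈ X, ∀ D ∈ γ, D ∉ R → S.sep {x, y} D ∧ T.sep {x, y} D

theorem exc_sdiff {γ R : Finset (Finset (Fin n))} (h : R ⊆ γ) : exc (γ \ R) + exc R = exc γ := by
  unfold exc
  exact Finset.sum_sdiff h

theorem exc_pairs {δ : Finset (Finset (Fin n))} (h : ∀ p ∈ δ, p.card = 2) : exc δ = δ.card := by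
  unfold exc
  rw [Finset.card_eq_sum_ones]
  exact Finset.sum_congr rfl fun p hp => by rw [h p hp]

theorem IsCell.disjoint {γ R δ : Finset (Finset (Fin n))} {X : Finset (Fin n)} {e : ℕ}
    (hc : IsCell S T γ R X) (hδ : δ ∈ confs S T X e) : Disjoint (γ \ R) δ := by
  rw [Finset.disjoint_left]
  intro p hp hp'
  obtain ⟨-, -, h3⟩ := mem_confs.1 hδ
  obtain ⟨x, hx⟩ := Finset.card_pos.1 (by rw [(h3 p hp').1]; norm_num : 0 < p.card)
  exact Finset.disjoint_left.1 hc.disj ((h3 p hp').2 hx)
    (mem_used.2 ⟨p, (Finset.mem_sdiff.1 hp).1, hx⟩)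

theorem IsCell.swap_mem {γ R δ : Finset (Finset (Fin n))} {X : Finset (Fin n)} {j : ℕ}
    (hγ : γ ∈ pats S T j) (hc : IsCell S T γ R X) (hδ : δ ∈ confs S T X (exc R + 1)) :
    (γ \ R) ∪ δ ∈ pats S T (j + 1) := by
  obtain ⟨h1, h2, h3⟩ := mem_pats.1 hγ
  obtain ⟨d1, d2, d3⟩ := mem_confs.1 hδ
  have hdis := hc.disjoint hδ
  have hsub : IsPat S T (γ \ R) := h1.subset Finset.sdiff_subset
  have hcross : ∀ C ∈ δ, ∀ D ∈ γ \ R, S.sep C D ∧ T.sep C D := by
    intro C hC D hD
    obtain ⟨x, y, hxy, rfl⟩ := Finset.card_eq_two.1 (d3 C hC).1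
    rw [Finset.mem_sdiff] at hD
    refine hc.sep x ?_ y ?_ D hD.1 hD.2
    · exact (d3 _ hC).2 (Finset.mem_insert_self _ _)
    · exact (d3 _ hC).2 (Finset.mem_insert_of_mem (Finset.mem_singleton_self _))
  rw [mem_pats]
  refine ⟨⟨?_, ?_, ?_⟩, ?_, ?_⟩
  · intro C hC
    rcases Finset.mem_union.1 hC with h | h
    · exact hsub.two C h
    · rw [(d3 C h).1]
  · intro C hC D hD hne
    rcases Finset.mem_union.1 hC with h | h <;> rcases Finset.mem_union.1 hD with h' | h'
    · exact hsub.sepS C h D h' hne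
    · exact S.symm (hcross D h' C h).1
    · exact (hcross C h D h').1
    · exact d1.sepS C h D h' hne
  · intro C hC D hD hne
    rcases Finset.mem_union.1 hC with h | h <;> rcases Finset.mem_union.1 hD with h' | h'
    · exact hsub.sepT C h D h' hne
    · exact T.symm (hcross D h' C h).2
    · exact (hcross C h D h').2
    · exact d1.sepT C h D h' hne
  · have e1 : exc ((γ \ R) ∪ δ) = exc (γ \ R) + exc δ := by
      unfold exc
      exact Finset.sum_union hdis
    have e2 := exc_sdiff hc.sub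
    have e3 := exc_pairs fun p hp => (d3 p hp).1
    omega
  · rw [Finset.card_union_of_disjoint hdis, Finset.card_sdiff_of_subset hc.sub, d2]
    have h4 := (h1.subset hc.sub).card_le_exc
    omega

/-- **The double counting.** -/
theorem swap_count (hn : 1 ≤ n) (j t e : ℕ) (ht : t ≤ 2)
    (R : Finset (Finset (Fin n)) → Finset (Finset (Fin n)))
    (X : Finset (Finset (Fin n)) → Finset (Fin n))
    (hcell : ∀ γ ∈ pats S T j, IsCell S T γ (R γ) (X γ)) :
    ∑ γ ∈ (pats S T j).filter (fun γ => (R γ).card = t ∧ exc (R γ) = e),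
      (confs S T (X γ) (e + 1)).card ≤
    (pats S T (j + 1)).card * ((j + 1) ^ (e + 1) * (2 * n) ^ (e + t)) := by
  classical
  rw [← Finset.card_sigma]
  have hB : ((pats S T (j + 1)).sigma fun γ' => powersetCard (e + 1) γ' ×ˢ RR n t e).card ≤
      (pats S T (j + 1)).card * ((j + 1) ^ (e + 1) * (2 * n) ^ (e + t)) := by
    rw [Finset.card_sigma, ← smul_eq_mul]
    refine Finset.sum_le_card_nsmul _ _ _ fun γ' hγ' => ?_
    rw [Finset.card_product, Finset.card_powersetCard]
    refine Nat.mul_le_mul ?_ (RR_card hn ht)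
    refine (Nat.choose_le_pow _ _).trans (Nat.pow_le_pow_left ?_ _)
    obtain ⟨h1, h2, -⟩ := mem_pats.1 hγ'
    rw [← h2]
    exact h1.card_le_exc
  refine le_trans (Finset.card_le_card_of_injOn
    (fun s => ⟨(s.1 \ R s.1) ∪ s.2, (s.2, R s.1)⟩) ?_ ?_) hB
  · rintro ⟨γ, δ⟩ hs
    rw [Finset.mem_coe, Finset.mem_sigma, Finset.mem_filter] at hs
    obtain ⟨⟨h1, h2, h3⟩, h4⟩ := hs
    simp only at h1 h2 h3 h4
    rw [Finset.mem_coe, Finset.mem_sigma, Finset.mem_product, Finset.mem_powersetCard, mem_RR]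
    refine ⟨?_, ⟨?_, ?_⟩, ?_, ?_, ?_⟩
    · exact (hcell γ h1).swap_mem h1 (by rw [h3]; exact h4)
    · exact Finset.subset_union_right
    · exact (mem_confs.1 h4).2.1
    · exact fun C hC => (mem_pats.1 h1).1.two C ((hcell γ h1).sub hC)
    · exact h2
    · exact h3
  · rintro ⟨γ, δ⟩ hs ⟨γ', δ'⟩ hs' he
    rw [Finset.mem_coe, Finset.mem_sigma, Finset.mem_filter] at hs hs'
    obtain ⟨⟨h1, h2, h3⟩, h4⟩ := hs
    obtain ⟨⟨h1', h2', h3'⟩, h4'⟩ := hs'
    simp only at h1 h2 h3 h4 h1' h2' h3' h4' he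
    rw [Sigma.mk.injEq, heq_eq_eq, Prod.mk.injEq] at he
    obtain ⟨a1, a2, a3⟩ := he
    subst a2
    have c1 := (hcell γ h1).disjoint h4
    have c2 := (hcell γ' h1').disjoint h4'
    have e1 : γ \ R γ = γ' \ R γ' := by
      have f1 : ((γ \ R γ) ∪ δ) \ δ = γ \ R γ := by
        rw [Finset.union_sdiff_right]
        exact Finset.sdiff_eq_self_of_disjoint c1
      have f2 : ((γ' \ R γ') ∪ δ) \ δ = γ' \ R γ' := by
        rw [Finset.union_sdiff_right]
        exact Finset.sdiff_eq_self_of_disjoint c2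
      rw [← f1, a1, f2]
    have e2 : γ = γ' := by
      rw [← Finset.sdiff_union_of_subset (hcell γ h1).sub, e1, a3,
        Finset.sdiff_union_of_subset (hcell γ' h1').sub]
    rw [e2]

end Pool.Agent.Lib.MP_251106_co
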