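import Mathlib
import Pool.Agent.Lib.MP_251106_co.Cell
import Pool.Agent.Lib.MP_251106_co.Swap

set_option autoImplicit false

/-!
# The last part of the sequence
-/

namespace Pool.Agent.Lib.MP_251106_co

open Finset

variable {n : ℕ}

/-- The numerical inequality. -/
theorem num_ineq {N P n j t z : ℕ} (ht : t ≤ 2) (hm : t + z + 1 ≤ j) (hn : 2 ^ 30 * j ^ 11 ≤ n)
    (h : N * n ^ (2 * (t + z + 1)) ≤ P * (j ^ (t + z + 1) * (2 * n) ^ (t + z + t)) *
      (32 * j ^ 2 * (t + z + 1) ^ 3) ^ (2 * (t + z + 1))) :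
    N * n ^ 2 * 2 ^ z ≤ P * (2 ^ 34 * 3 ^ 18 * j ^ 15) := by
  have hj : 1 ≤ j := by omega
  have hn0 : 0 < n := lt_of_lt_of_le (by positivity) hn
  set m := t + z + 1 with hmdef
  -- cancel the power of `n`
  have h1 : N * (n ^ 2 * n ^ z) ≤ P * (2 ^ (2 * t + z) * j ^ m * (32 * j ^ 2 * m ^ 3) ^ (2 * m)) := by
    have e1 : n ^ (2 * m) = n ^ (2 * t + z) * (n ^ 2 * n ^ z) := by
      rw [← pow_add, ← pow_add]
      congr 1
      omega
    have e2 : (2 * n) ^ (t + z + t) = 2 ^ (2 * t + z) * n ^ (2 * t + z) := by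
      rw [mul_pow]
      congr 2 <;> omega
    rw [e1, e2] at h
    have hpos : 0 < n ^ (2 * t + z) := Nat.pow_pos hn0
    refine Nat.le_of_mul_le_mul_left (c := n ^ (2 * t + z)) ?_ hpos
    calc n ^ (2 * t + z) * (N * (n ^ 2 * n ^ z)) = N * (n ^ (2 * t + z) * (n ^ 2 * n ^ z)) := by ring
      _ ≤ _ := h
      _ = _ := by ring
  have h2 : (2 ^ 30 * j ^ 11) ^ z ≤ n ^ z := Nat.pow_le_pow_left hn z
  have h3 : 2 ^ (2 * t + z) * j ^ m * (32 * j ^ 2 * m ^ 3) ^ (2 * m) ≤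
      2 ^ 34 * 3 ^ 18 * j ^ 15 * (2 ^ 29 * j ^ 11) ^ z := by
    have a1 : (32 * j ^ 2 * m ^ 3) ^ (2 * m) = 2 ^ (10 * m) * j ^ (4 * m) * m ^ (6 * m) := by
      have c1 : (32 : ℕ) ^ (2 * m) = 2 ^ (10 * m) := by
        rw [show (32 : ℕ) = 2 ^ 5 by norm_num, ← pow_mul]
        congr 1
        ring
      have c2 : (j ^ 2) ^ (2 * m) = j ^ (4 * m) := by
        rw [← pow_mul]
        congr 1
        ring
      have c3 : (m ^ 3) ^ (2 * m) = m ^ (6 * m) := by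
        rw [← pow_mul]
        congr 1
        ring
      rw [mul_pow, mul_pow, c1, c2, c3]
    have a2 : m ^ (6 * m) ≤ 3 ^ 18 * 2 ^ (18 * z) * j ^ (6 * z) := by
      have b1 : m ^ (6 * m) = m ^ (6 * (t + 1)) * m ^ (6 * z) := by
        rw [← pow_add]
        congr 1
        omega
      have b2 : m ^ (6 * (t + 1)) ≤ m ^ 18 := Nat.pow_le_pow_right (by omega) (by omega)
      have b3 : m ≤ 3 * 2 ^ z := by
        have : z + 1 ≤ 2 ^ z := Nat.lt_two_pow_self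
        omega
      have b4 : m ^ 18 ≤ (3 * 2 ^ z) ^ 18 := Nat.pow_le_pow_left b3 18
      have b5 : (3 * 2 ^ z) ^ 18 = 3 ^ 18 * 2 ^ (18 * z) := by
        rw [mul_pow, ← pow_mul, mul_comm z 18]
      have b6 : m ^ (6 * z) ≤ j ^ (6 * z) := Nat.pow_le_pow_left hm _
      rw [b1]
      exact Nat.mul_le_mul (b2.trans (b4.trans b5.le)) b6
    have a3 : 2 ^ (2 * t + z) * 2 ^ (10 * m) ≤ 2 ^ (34 + 11 * z) := by
      rw [← pow_add]
      exact Nat.pow_le_pow_right (by norm_num) (by omega)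
    have a4 : j ^ m * j ^ (4 * m) ≤ j ^ (15 + 5 * z) := by
      rw [← pow_add]
      exact Nat.pow_le_pow_right hj (by omega)
    rw [a1]
    calc 2 ^ (2 * t + z) * j ^ m * (2 ^ (10 * m) * j ^ (4 * m) * m ^ (6 * m))
        = (2 ^ (2 * t + z) * 2 ^ (10 * m)) * (j ^ m * j ^ (4 * m)) * m ^ (6 * m) := by ring
      _ ≤ 2 ^ (34 + 11 * z) * j ^ (15 + 5 * z) * (3 ^ 18 * 2 ^ (18 * z) * j ^ (6 * z)) :=
          Nat.mul_le_mul (Nat.mul_le_mul a3 a4) a2
      _ = 3 ^ 18 * (2 ^ (34 + 11 * z) * 2 ^ (18 * z)) * (j ^ (15 + 5 * z) * j ^ (6 * z)) := by ring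
      _ = 3 ^ 18 * 2 ^ (34 + 29 * z) * j ^ (15 + 11 * z) := by
          rw [← pow_add, ← pow_add]
          congr 2
          · congr 1; omega
          · omega
      _ = 2 ^ 34 * 3 ^ 18 * j ^ 15 * (2 ^ 29 * j ^ 11) ^ z := by
          rw [pow_add, pow_add, pow_mul, pow_mul, mul_pow]; ring
  have hpos : 0 < (2 ^ 29 * j ^ 11) ^ z := by positivity
  refine Nat.le_of_mul_le_mul_right (c := (2 ^ 29 * j ^ 11) ^ z) ?_ hpos
  calc N * n ^ 2 * 2 ^ z * (2 ^ 29 * j ^ 11) ^ z = N * n ^ 2 * (2 ^ 30 * j ^ 11) ^ z := by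
        rw [show (2 : ℕ) ^ 30 * j ^ 11 = 2 * (2 ^ 29 * j ^ 11) by ring, mul_pow 2]; ring
    _ ≤ N * n ^ 2 * n ^ z := Nat.mul_le_mul_left _ h2
    _ = N * (n ^ 2 * n ^ z) := by ring
    _ ≤ P * (2 ^ (2 * t + z) * j ^ m * (32 * j ^ 2 * m ^ 3) ^ (2 * m)) := h1
    _ ≤ P * (2 ^ 34 * 3 ^ 18 * j ^ 15 * (2 ^ 29 * j ^ 11) ^ z) := Nat.mul_le_mul_left _ h3
    _ = P * (2 ^ 34 * 3 ^ 18 * j ^ 15) * (2 ^ 29 * j ^ 11) ^ z := by ring

/-- many families in a large cell -/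
theorem confs_lower (S T : Sys n) {i m : ℕ} {X : Finset (Fin n)} (hm1 : 1 ≤ m) (hm : m ≤ i + 1)
    (hn : 2 ^ 30 * (i + 1) ^ 11 ≤ n) (hX : n ≤ 2 * i + X.card * (i + 1) ^ 2) :
    n ^ (2 * m) ≤ (confs S T X m).card * (32 * (i + 1) ^ 2 * m ^ 3) ^ (2 * m) := by
  set j := i + 1 with hj
  have hj1 : 1 ≤ j := by omega
  have h4 : 4 * j ≤ n := by
    have : j ≤ j ^ 11 := Nat.le_self_pow (by norm_num) j
    omega
  have h5 : n ≤ 2 * X.card * j ^ 2 := by
    have : 2 * (X.card * j ^ 2) = 2 * X.card * j ^ 2 := by ring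
    omega
  have h6 : 16 * j ^ 3 ≤ X.card := by
    by_contra hcon
    push Not at hcon
    have e1 : n ≤ 2 * (16 * j ^ 3) * j ^ 2 :=
      h5.trans (Nat.mul_le_mul_right _ (Nat.mul_le_mul_left _ hcon.le))
    have e2 : 2 * (16 * j ^ 3) * j ^ 2 = 32 * j ^ 5 := by ring
    have e3 : j ^ 5 ≤ j ^ 11 := Nat.pow_le_pow_right hj1 (by norm_num)
    have e4 : 0 < j ^ 11 := by positivity
    omega
  obtain ⟨c, hc1, hc2⟩ : ∃ c : ℕ, m ≤ 2 ^ c ∧ 2 ^ c ≤ 2 * m := by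
    refine ⟨Nat.log 2 m + 1, (Nat.lt_pow_succ_log_self (by norm_num) m).le, ?_⟩
    rw [pow_succ, mul_comm]
    exact Nat.mul_le_mul_left 2 (Nat.pow_log_le_self 2 (by omega))
  have h7 : 2 * 6 ^ c ≤ 16 * m ^ 3 := by
    have e1 : (6 : ℕ) ^ c ≤ 8 ^ c := Nat.pow_le_pow_left (by norm_num) c
    have e2 : (8 : ℕ) ^ c = (2 ^ c) ^ 3 := by
      rw [← pow_mul, mul_comm c 3, pow_mul]; norm_num
    have e3 : (2 ^ c) ^ 3 ≤ (2 * m) ^ 3 := Nat.pow_le_pow_left hc2 3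
    have e4 : (2 * m) ^ 3 = 8 * m ^ 3 := by ring
    omega
  have h8 : 2 * 6 ^ c ≤ X.card := by
    have : m ^ 3 ≤ j ^ 3 := Nat.pow_le_pow_left hm 3
    omega
  have h9 := confs_bound S T c m X hm1 hc1 h8
  calc n ^ (2 * m) ≤ (2 * X.card * j ^ 2) ^ (2 * m) := Nat.pow_le_pow_left h5 _
    _ = (2 * j ^ 2) ^ (2 * m) * X.card ^ (2 * m) := by
        rw [← mul_pow]; congr 1; ring
    _ ≤ (2 * j ^ 2) ^ (2 * m) * ((confs S T X m).card * (2 * 6 ^ c) ^ (2 * m)) :=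
        Nat.mul_le_mul_left _ h9
    _ ≤ (2 * j ^ 2) ^ (2 * m) * ((confs S T X m).card * (16 * m ^ 3) ^ (2 * m)) :=
        Nat.mul_le_mul_left _ (Nat.mul_le_mul_left _ (Nat.pow_le_pow_left h7 _))
    _ = (confs S T X m).card * ((2 * j ^ 2) ^ (2 * m) * (16 * m ^ 3) ^ (2 * m)) := by ring
    _ = (confs S T X m).card * (32 * j ^ 2 * m ^ 3) ^ (2 * m) := by
        rw [← mul_pow]; congr 2; ring

/-- **The last part of the sequence.** -/
theorem down_main (S T : Sys n) {j : ℕ} (hj : 1 ≤ j) (hn : 2 ^ 30 * j ^ 11 ≤ n) :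
    n ^ 2 * (pats S T (j - 1)).card ≤ 2 ^ 66 * j ^ 15 * (pats S T j).card := by
  classical
  obtain ⟨i, rfl⟩ : ∃ i, j = i + 1 := ⟨j - 1, by omega⟩
  rw [Nat.add_sub_cancel]
  have hn1 : 1 ≤ n := by
    have : 0 < 2 ^ 30 * (i + 1) ^ 11 := by positivity
    omega
  have key : ∀ γ : Finset (Finset (Fin n)), ∃ (R : Finset (Finset (Fin n))) (X : Finset (Fin n)),
      γ ∈ pats S T i → IsCell S T γ R X ∧ R.card ≤ 2 ∧ n ≤ 2 * i + X.card * (i + 1) ^ 2 := by
    intro γ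
    by_cases hγ : γ ∈ pats S T i
    · obtain ⟨h1, h2, h3⟩ := mem_pats.1 hγ
      obtain ⟨R, X, a1, a2, a3, a4, a5⟩ := exists_cell h1
      refine ⟨R, X, fun _ => ⟨⟨a1, a3, a5⟩, a2, ?_⟩⟩
      have h4 := h1.card_used
      have h5 := h1.card_le_exc
      have h6 : X.card * (γ.card + 1) ^ 2 ≤ X.card * (i + 1) ^ 2 :=
        Nat.mul_le_mul_left _ (Nat.pow_le_pow_left (by omega) 2)
      omega
    · exact ⟨∅, ∅, fun h => absurd h hγ⟩
  choose R X hRX using key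
  set P := (pats S T (i + 1)).card with hP
  -- one class
  have hclass : ∀ t z : ℕ, t ≤ 2 →
      ((pats S T i).filter fun γ => (R γ).card = t ∧ exc (R γ) = t + z).card * n ^ 2 * 2 ^ z ≤
        P * (2 ^ 34 * 3 ^ 18 * (i + 1) ^ 15) := by
    intro t z ht
    set Q := (pats S T i).filter fun γ => (R γ).card = t ∧ exc (R γ) = t + z with hQ
    rcases Q.eq_empty_or_nonempty with h0 | ⟨γ0, hγ0⟩
    · rw [h0]
      simp
    have hle : t + z ≤ i := by
      rw [hQ, Finset.mem_filter] at hγ0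
      have h1 := exc_sdiff (hRX γ0 hγ0.1).1.sub
      have h2 := (mem_pats.1 hγ0.1).2.1
      omega
    have hcount := swap_count hn1 i t (t + z) ht R X fun γ hγ => (hRX γ hγ).1
    rw [← hQ, ← hP] at hcount
    refine num_ineq ht (by omega : t + z + 1 ≤ i + 1) hn ?_
    have h1 : Q.card * n ^ (2 * (t + z + 1)) ≤
        ∑ γ ∈ Q, (confs S T (X γ) (t + z + 1)).card *
          (32 * (i + 1) ^ 2 * (t + z + 1) ^ 3) ^ (2 * (t + z + 1)) := by
      rw [← smul_eq_mul]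
      refine Finset.card_nsmul_le_sum _ _ _ fun γ hγ => ?_
      rw [hQ, Finset.mem_filter] at hγ
      exact confs_lower S T (by omega) (by omega) hn (hRX γ hγ.1).2.2
    rw [← Finset.sum_mul] at h1
    exact h1.trans (Nat.mul_le_mul_right _ hcount)
  -- the sum
  have hsum : (pats S T i).card = ∑ s ∈ range 3 ×ˢ range (n + 1),
      ((pats S T i).filter fun γ => ((R γ).card, exc (R γ) - (R γ).card) = s).card := by
    refine Finset.card_eq_sum_card_fiberwise fun γ hγ => ?_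
    rw [Finset.mem_coe] at hγ
    rw [Finset.mem_coe, Finset.mem_product, Finset.mem_range, Finset.mem_range]
    have h1 := hRX γ hγ
    have h2 := exc_sdiff h1.1.sub
    have h3 := (mem_pats.1 hγ).2.1
    have h4 := (mem_pats.1 hγ).1.le
    simp only
    omega
  have hnQ : (0 : ℚ) < (n : ℚ) ^ 2 := by
    have : (0 : ℚ) < n := by exact_mod_cast hn1
    positivity
  set K : ℚ := P * (2 ^ 34 * 3 ^ 18 * (i + 1 : ℚ) ^ 15) / (n : ℚ) ^ 2 with hK
  have hK0 : 0 ≤ K := by positivity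
  have hterm : ∀ s ∈ range 3 ×ˢ range (n + 1),
      (((pats S T i).filter fun γ => ((R γ).card, exc (R γ) - (R γ).card) = s).card : ℚ) ≤
        K * (1 / 2) ^ s.2 := by
    rintro ⟨t, z⟩ hs
    rw [Finset.mem_product, Finset.mem_range] at hs
    have ht : t ≤ 2 := by
      have := hs.1
      simp only at this
      omega
    have h1 : ((pats S T i).filter fun γ => ((R γ).card, exc (R γ) - (R γ).card) = (t, z)).card ≤
        ((pats S T i).filter fun γ => (R γ).card = t ∧ exc (R γ) = t + z).card := by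
      refine Finset.card_le_card fun γ hγ => ?_
      rw [Finset.mem_filter, Prod.mk.injEq] at hγ
      rw [Finset.mem_filter]
      refine ⟨hγ.1, hγ.2.1, ?_⟩
      have h2 := ((mem_pats.1 hγ.1).1.subset (hRX γ hγ.1).1.sub).card_le_exc
      omega
    have h2 := hclass t z ht
    have h3 : (((pats S T i).filter fun γ => (R γ).card = t ∧ exc (R γ) = t + z).card : ℚ) *
        (n : ℚ) ^ 2 * 2 ^ z ≤ P * (2 ^ 34 * 3 ^ 18 * (i + 1 : ℚ) ^ 15) := by exact_mod_cast h2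
    have h4 : (((pats S T i).filter fun γ =>
        ((R γ).card, exc (R γ) - (R γ).card) = (t, z)).card : ℚ) ≤
        ((pats S T i).filter fun γ => (R γ).card = t ∧ exc (R γ) = t + z).card := by
      exact_mod_cast h1
    refine h4.trans ?_
    have h5 : (0 : ℚ) < 2 ^ z := by positivity
    simp only
    rw [hK, one_div, inv_pow, ← div_eq_mul_inv, div_div, le_div_iff₀ (by positivity)]
    calc (((pats S T i).filter fun γ => (R γ).card = t ∧ exc (R γ) = t + z).card : ℚ) *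
          ((n : ℚ) ^ 2 * 2 ^ z) = _ := by rw [← mul_assoc]
      _ ≤ _ := h3
  have hgeom : ∑ z ∈ range (n + 1), ((1 : ℚ) / 2) ^ z ≤ 2 := by
    rw [geom_sum_eq (show (1 / 2 : ℚ) ≠ 1 by norm_num) (n + 1)]
    have h : (0 : ℚ) ≤ (1 / 2) ^ (n + 1) := by positivity
    rw [div_le_iff_of_neg (by norm_num)]
    linarith
  have htot : ((pats S T i).card : ℚ) ≤ 6 * K := by
    rw [hsum]
    push_cast
    refine (Finset.sum_le_sum hterm).trans ?_
    rw [Finset.sum_product]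
    simp only [Finset.sum_const, Finset.card_range, nsmul_eq_mul, ← Finset.mul_sum]
    push_cast
    nlinarith
  have hfin : ((n ^ 2 * (pats S T i).card : ℕ) : ℚ) ≤
      ((2 ^ 66 * (i + 1) ^ 15 * P : ℕ) : ℚ) := by
    push_cast
    have h1 : (n : ℚ) ^ 2 * ((pats S T i).card : ℚ) ≤ (n : ℚ) ^ 2 * (6 * K) :=
      mul_le_mul_of_nonneg_left htot hnQ.le
    have h2 : (n : ℚ) ^ 2 * (6 * K) = 6 * (P * (2 ^ 34 * 3 ^ 18 * (i + 1 : ℚ) ^ 15)) := by
      rw [hK]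
      field_simp
    rw [h2] at h1
    refine h1.trans ?_
    have h3 : (0 : ℚ) ≤ P * (i + 1 : ℚ) ^ 15 := by positivity
    nlinarith
  exact_mod_cast hfin

end Pool.Agent.Lib.MP_251106_co
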