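import Mathlib
import Pool.Agent.Lib.MP_251106_co.Defs

set_option autoImplicit false

/-!
# Existence of caterpillars
-/

namespace Pool.Agent.Lib.MP_251106_co

open SimpleGraph

/-- A graph given by a parent function is a tree. -/
theorem isTree_of_parent {V : Type} [Finite V] (G : SimpleGraph V) (r : V) (par : V → V)
    (rk : V → ℕ) (h1 : ∀ v, v ≠ r → G.Adj v (par v)) (h2 : ∀ v, v ≠ r → rk (par v) < rk v)
    (h3 : ∀ u v, G.Adj u v → (u ≠ r ∧ v = par u) ∨ (v ≠ r ∧ u = par v)) : G.IsTree := by
  classical
  have : Fintype V := Fintype.ofFinite V
  have : Nonempty V := ⟨r⟩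
  have hreach : ∀ k : ℕ, ∀ v, rk v = k → G.Reachable v r := by
    intro k
    induction k using Nat.strong_induction_on with
    | _ k ih =>
      intro v hv
      by_cases hvr : v = r
      · rw [hvr]
      · exact (h1 v hvr).reachable.trans (ih (rk (par v)) (by rw [← hv]; exact h2 v hvr) _ rfl)
  rw [isTree_iff_connected_and_card]
  refine ⟨⟨fun u v => (hreach _ u rfl).trans (hreach _ v rfl).symm⟩, ?_⟩
  let f : {v : V // v ≠ r} → G.edgeSet := fun v => ⟨s(v.1, par v.1), h1 v.1 v.2⟩
  have hf : Function.Bijective f := by
    constructor
    · rintro ⟨v, hv⟩ ⟨w, hw⟩ hvw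
      have h4 : s(v, par v) = s(w, par w) := congrArg Subtype.val hvw
      rw [Sym2.eq_iff] at h4
      rcases h4 with ⟨h, -⟩ | ⟨h, h'⟩
      · exact Subtype.ext h
      · exfalso
        have e1 := h2 v hv
        have e2 := h2 w hw
        rw [h'] at e1
        rw [← h] at e2
        omega
    · rintro ⟨e, he⟩
      induction e using Sym2.ind with
      | _ u v =>
        rw [mem_edgeSet] at he
        rcases h3 u v he with ⟨hu, hv⟩ | ⟨hv, hu⟩
        · exact ⟨⟨u, hu⟩, Subtype.ext (by simp only [f]; rw [hv])⟩
        · exact ⟨⟨v, hv⟩, Subtype.ext (by simp only [f]; rw [hu, Sym2.eq_swap])⟩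
  rw [← Nat.card_congr (Equiv.ofBijective f hf), Nat.card_eq_fintype_card, Nat.card_eq_fintype_card,
    Fintype.card_subtype_compl, Fintype.card_subtype_eq]
  have := Fintype.card_pos (α := V)
  omega

/-- the vertices -/
abbrev CV (m : ℕ) := Fin (m + 3) ⊕ Fin (m + 1)

/-- adjacency -/
def catAdj (m : ℕ) : CV m → CV m → Prop
  | .inl a, .inl b => a.val + 1 = b.val ∨ b.val + 1 = a.val
  | .inl a, .inr i => a.val = i.val + 1
  | .inr i, .inl a => a.val = i.val + 1
  | .inr _, .inr _ => False

/-- the path `0, ..., m + 2` with one more leaf at every inner vertex -/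
def catG (m : ℕ) : SimpleGraph (CV m) where
  Adj := catAdj m
  symm := ⟨by
    rintro (a | i) (b | j) h
    · exact Or.symm h
    · exact h
    · exact h
    · exact h⟩
  loopless := ⟨by
    rintro (a | i) h
    · change a.val + 1 = a.val ∨ a.val + 1 = a.val at h
      omega
    · exact h⟩

/-- parents -/
def catPar (m : ℕ) : CV m → CV m
  | .inl a => .inl ⟨a.val - 1, by omega⟩
  | .inr i => .inl ⟨i.val + 1, by omega⟩

/-- rank -/
def catRk (m : ℕ) : CV m → ℕ
  | .inl a => a.val
  | .inr i => i.val + 2

theorem catG_isTree (m : ℕ) : (catG m).IsTree := by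
  refine isTree_of_parent (catG m) (.inl 0) (catPar m) (catRk m) ?_ ?_ ?_
  · rintro (a | i) h
    · have ha : a.val ≠ 0 := fun h0 => h (by rw [show a = 0 from Fin.ext h0])
      change a.val + 1 = a.val - 1 ∨ a.val - 1 + 1 = a.val
      omega
    · change i.val + 1 = i.val + 1
      rfl
  · rintro (a | i) h
    · have ha : a.val ≠ 0 := fun h0 => h (by rw [show a = 0 from Fin.ext h0])
      change a.val - 1 < a.val
      omega
    · change i.val + 1 < i.val + 2
      omega
  · rintro (a | i) (b | j) h
    · have h' : a.val + 1 = b.val ∨ b.val + 1 = a.val := h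
      rcases h' with h' | h'
      · right
        refine ⟨?_, ?_⟩
        · intro hb
          have := congrArg Fin.val (Sum.inl_injective hb)
          rw [Fin.val_zero] at this
          omega
        · change Sum.inl a = Sum.inl _
          congr 1
          apply Fin.ext
          simp only
          omega
      · left
        refine ⟨?_, ?_⟩
        · intro hb
          have := congrArg Fin.val (Sum.inl_injective hb)
          rw [Fin.val_zero] at this
          omega
        · change Sum.inl b = Sum.inl _
          congr 1
          apply Fin.ext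
          simp only
          omega
    · right
      refine ⟨by simp, ?_⟩
      change Sum.inl a = Sum.inl _
      congr 1
      exact Fin.ext h
    · left
      refine ⟨by simp, ?_⟩
      change Sum.inl b = Sum.inl _
      congr 1
      exact Fin.ext h
    · exact absurd h (fun h => h)

/-- the leaves -/
def catLeaf (m : ℕ) (k : Fin (m + 3)) : CV m :=
  if h : 0 < k.val ∧ k.val < m + 2 then .inr ⟨k.val - 1, by omega⟩ else .inl k

theorem catLeaf_injective (m : ℕ) : Function.Injective (catLeaf m) := by
  intro k l h
  unfold catLeaf at h
  split_ifs at h with h1 h2 h2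
  · have := congrArg Fin.val (Sum.inr_injective h)
    simp only at this
    exact Fin.ext (by omega)
  · exact Sum.inl_injective h

theorem mem_range_catLeaf (m : ℕ) (v : CV m) : v ∈ Set.range (catLeaf m) ↔
    ¬ ∃ a : Fin (m + 3), v = .inl a ∧ 0 < a.val ∧ a.val < m + 2 := by
  constructor
  · rintro ⟨k, rfl⟩ ⟨a, ha, h1, h2⟩
    unfold catLeaf at ha
    split_ifs at ha with h
    · cases Sum.inl_injective ha
      exact h ⟨h1, h2⟩
  · intro h
    rcases v with a | i
    · refine ⟨a, ?_⟩
      unfold catLeaf
      rw [dif_neg]
      rintro ⟨h1, h2⟩
      exact h ⟨a, rfl, h1, h2⟩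
    · refine ⟨⟨i.val + 1, by omega⟩, ?_⟩
      unfold catLeaf
      rw [dif_pos ⟨by simp, by simp only; omega⟩]
      simp

theorem cat_inner (m : ℕ) (a : Fin (m + 3)) (h1 : 0 < a.val) (h2 : a.val < m + 2) :
    ((catG m).neighborSet (.inl a)).ncard = 3 := by
  have h : (catG m).neighborSet (.inl a) = {.inl ⟨a.val - 1, by omega⟩, .inl ⟨a.val + 1, by omega⟩,
      .inr ⟨a.val - 1, by omega⟩} := by
    ext v
    rw [mem_neighborSet]
    simp only [Set.mem_insert_iff, Set.mem_singleton_iff]
    rcases v with b | i
    · constructor
      · intro h
        have h' : a.val + 1 = b.val ∨ b.val + 1 = a.val := h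
        rcases h' with h' | h'
        · right; left
          congr 1
          exact Fin.ext h'.symm
        · left
          congr 1
          apply Fin.ext
          simp only
          omega
      · rintro (h | h | h)
        · have := congrArg Fin.val (Sum.inl_injective h)
          simp only at this
          change a.val + 1 = b.val ∨ b.val + 1 = a.val
          omega
        · have := congrArg Fin.val (Sum.inl_injective h)
          simp only at this
          change a.val + 1 = b.val ∨ b.val + 1 = a.val
          omega
        · exact absurd h (by simp)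
    · constructor
      · intro h
        have h' : a.val = i.val + 1 := h
        right; right
        congr 1
        apply Fin.ext
        simp only
        omega
      · rintro (h | h | h)
        · exact absurd h (by simp)
        · exact absurd h (by simp)
        · have := congrArg Fin.val (Sum.inr_injective h)
          simp only at this
          change a.val = i.val + 1
          omega
  rw [h, Set.ncard_eq_three]
  refine ⟨_, _, _, ?_, ?_, ?_, rfl⟩
  · intro h
    have := congrArg Fin.val (Sum.inl_injective h)
    simp only at this
    omega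
  · simp
  · simp

theorem cat_leaf (m : ℕ) (v : CV m) (h : v ∈ Set.range (catLeaf m)) :
    ((catG m).neighborSet v).ncard = 1 := by
  rw [mem_range_catLeaf] at h
  rw [Set.ncard_eq_one]
  rcases v with a | i
  · have ha : a.val = 0 ∨ a.val = m + 2 := by
      by_contra hcon
      exact h ⟨a, rfl, by omega, by omega⟩
    rcases ha with ha | ha
    · refine ⟨.inl ⟨1, by omega⟩, ?_⟩
      ext v
      rw [mem_neighborSet, Set.mem_singleton_iff]
      rcases v with b | i
      · constructor
        · intro h
          have h' : a.val + 1 = b.val ∨ b.val + 1 = a.val := h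
          congr 1
          apply Fin.ext
          simp only
          omega
        · intro h
          have := congrArg Fin.val (Sum.inl_injective h)
          simp only at this
          change a.val + 1 = b.val ∨ b.val + 1 = a.val
          omega
      · constructor
        · intro h
          have h' : a.val = i.val + 1 := h
          omega
        · intro h
          exact absurd h (by simp)
    · refine ⟨.inl ⟨m + 1, by omega⟩, ?_⟩
      ext v
      rw [mem_neighborSet, Set.mem_singleton_iff]
      rcases v with b | i
      · constructor
        · intro h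
          have h' : a.val + 1 = b.val ∨ b.val + 1 = a.val := h
          congr 1
          apply Fin.ext
          simp only
          omega
        · intro h
          have := congrArg Fin.val (Sum.inl_injective h)
          simp only at this
          change a.val + 1 = b.val ∨ b.val + 1 = a.val
          omega
      · constructor
        · intro h
          have h' : a.val = i.val + 1 := h
          omega
        · intro h
          exact absurd h (by simp)
  · refine ⟨.inl ⟨i.val + 1, by omega⟩, ?_⟩
    ext v
    rw [mem_neighborSet, Set.mem_singleton_iff]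
    rcases v with b | j
    · constructor
      · intro h
        have h' : b.val = i.val + 1 := h
        congr 1
        exact Fin.ext h'
      · intro h
        have := congrArg Fin.val (Sum.inl_injective h)
        exact this
    · constructor
      · intro h
        exact absurd h (fun h => h)
      · intro h
        exact absurd h (by simp)

/-- the caterpillar with `m + 3` leaves -/
def cat (m : ℕ) : PhyloTree (m + 3) where
  V := CV m
  G := catG m
  isTree := catG_isTree m
  degree v := by
    by_cases h : v ∈ Set.range (catLeaf m)
    · exact Or.inl (cat_leaf m v h)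
    · rw [mem_range_catLeaf, not_not] at h
      obtain ⟨a, rfl, h1, h2⟩ := h
      exact Or.inr (cat_inner m a h1 h2)
  leaf := catLeaf m
  leaf_injective := catLeaf_injective m
  leaf_range v := by
    constructor
    · exact cat_leaf m v
    · intro h
      by_contra hcon
      rw [mem_range_catLeaf, not_not] at hcon
      obtain ⟨a, rfl, h1, h2⟩ := hcon
      rw [cat_inner m a h1 h2] at h
      omega

theorem cat_isCaterpillar (m : ℕ) : (cat m).IsCaterpillar := by
  refine ⟨m + 1, by omega, ⟨?_⟩⟩
  have key : ∀ v : {v : CV m | v ∉ Set.range (catLeaf m)}, ∃ i : Fin (m + 1),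
      v.1 = .inl ⟨i.val + 1, by omega⟩ := by
    rintro ⟨v, hv⟩
    rw [Set.mem_ofPred_eq, mem_range_catLeaf, not_not] at hv
    obtain ⟨a, rfl, h1, h2⟩ := hv
    refine ⟨⟨a.val - 1, by omega⟩, ?_⟩
    simp only
    congr 1
    apply Fin.ext
    simp only
    omega
  have key2 : ∀ i : Fin (m + 1),
      (Sum.inl ⟨i.val + 1, by omega⟩ : CV m) ∈ {v : CV m | v ∉ Set.range (catLeaf m)} := by
    intro i
    rw [Set.mem_ofPred_eq, mem_range_catLeaf, not_not]
    exact ⟨_, rfl, by simp, by simp only; omega⟩
  let f : Fin (m + 1) → {v : CV m | v ∉ Set.range (catLeaf m)} := fun i => ⟨_, key2 i⟩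
  have hf : Function.Bijective f := by
    constructor
    · intro i j h
      have h1 := congrArg Subtype.val h
      have := congrArg Fin.val (Sum.inl_injective h1)
      simp only at this
      exact Fin.ext (by omega)
    · intro v
      obtain ⟨i, hi⟩ := key v
      exact ⟨i, Subtype.ext hi.symm⟩
  refine (RelIso.symm ⟨Equiv.ofBijective f hf, ?_⟩ :
    ((catG m).induce {v : CV m | v ∉ Set.range (catLeaf m)}) ≃g SimpleGraph.pathGraph (m + 1))
  intro i j
  rw [pathGraph_adj]
  change (i.val + 1 + 1 = j.val + 1 ∨ j.val + 1 + 1 = i.val + 1) ↔ _
  omega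

theorem exists_caterpillar {n : ℕ} (hn : 3 ≤ n) : ∃ T : PhyloTree n, T.IsCaterpillar := by
  obtain ⟨m, rfl⟩ : ∃ m, n = m + 3 := ⟨n - 3, by omega⟩
  exact ⟨cat m, cat_isCaterpillar m⟩

end Pool.Agent.Lib.MP_251106_co
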