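import Mathlib
import Pool.Agent.Lib.MP_251106_co.Pat

set_option autoImplicit false

/-!
# Positivity
-/

namespace Pool.Agent.Lib.MP_251106_co

open Finset

variable {n : ℕ} {S T : Sys n}

theorem isPat_pair {C D : Finset (Fin n)} (hC : 2 ≤ C.card) (hD : 2 ≤ D.card)
    (hS : S.sep C D) (hT : T.sep C D) : IsPat S T {C, D} := by
  have h0 : IsPat S T ({D} : Finset (Finset (Fin n))) := by
    refine ⟨?_, ?_, ?_⟩
    · intro E hE
      rw [Finset.mem_singleton] at hE
      subst hE
      exact hD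
    · intro E hE E' hE' hne
      rw [Finset.mem_singleton] at hE hE'
      exact absurd (hE.trans hE'.symm) hne
    · intro E hE E' hE' hne
      rw [Finset.mem_singleton] at hE hE'
      exact absurd (hE.trans hE'.symm) hne
  refine h0.insert hC ?_ ?_
  · intro E hE
    rw [Finset.mem_singleton] at hE
    subst hE
    exact hS
  · intro E hE
    rw [Finset.mem_singleton] at hE
    subst hE
    exact hT

/-- Two sets which are separated in both trees and contain half of the leaves. -/
theorem exists_two (S T : Sys n) (hn : 12 ≤ n) : ∃ C D : Finset (Fin n), 2 ≤ C.card ∧ 2 ≤ D.card ∧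
    n ≤ 2 * (C.card + D.card) ∧ S.sep C D ∧ T.sep C D := by
  obtain ⟨A, hA1, hA2, hA⟩ := S.cut univ (by rw [Finset.card_univ, Fintype.card_fin]; omega)
  obtain ⟨B, hB1, hB2, hB⟩ := T.cut univ (by rw [Finset.card_univ, Fintype.card_fin]; omega)
  rw [Finset.card_univ, Fintype.card_fin, Finset.univ_inter] at hA1 hB1
  rw [Finset.card_univ, Fintype.card_fin] at hA2 hB2
  have e1 : (A ∩ B).card + (A \ B).card = A.card := Finset.card_inter_add_card_sdiff A B
  have e2 : (B ∩ A).card + (B \ A).card = B.card := Finset.card_inter_add_card_sdiff B A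
  rw [Finset.inter_comm] at e2
  have e3 : ((univ \ A) ∩ B).card + ((univ \ A) \ B).card = (univ \ A).card :=
    Finset.card_inter_add_card_sdiff (univ \ A) B
  have e4 : (univ \ A) ∩ B = B \ A := by
    ext x
    simp only [Finset.mem_inter, Finset.mem_sdiff, Finset.mem_univ, true_and]
    tauto
  rw [e4] at e3
  have e5 : ((univ \ B) ∩ A).card + ((univ \ B) \ A).card = (univ \ B).card :=
    Finset.card_inter_add_card_sdiff (univ \ B) A
  have e6 : (univ \ B) ∩ A = A \ B := by
    ext x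
    simp only [Finset.mem_inter, Finset.mem_sdiff, Finset.mem_univ, true_and]
    tauto
  have e7 : (univ \ B) \ A = (univ \ A) \ B := by
    ext x
    simp only [Finset.mem_sdiff, Finset.mem_univ, true_and]
    tauto
  rw [e6, e7] at e5
  have e8 : A.card + (univ \ A).card = n := by
    rw [add_comm, Finset.card_sdiff_add_card_eq_card (Finset.subset_univ A), Finset.card_univ,
      Fintype.card_fin]
  have hor : (2 ≤ (A ∩ B).card ∧ 2 ≤ ((univ \ A) \ B).card ∧
      n ≤ 2 * ((A ∩ B).card + ((univ \ A) \ B).card)) ∨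
      (2 ≤ (A \ B).card ∧ 2 ≤ (B \ A).card ∧ n ≤ 2 * ((A \ B).card + (B \ A).card)) := by
    omega
  have hdisj : Disjoint ((univ \ A) \ B) A := by
    rw [Finset.disjoint_left]
    intro x hx hxA
    simp only [Finset.mem_sdiff, Finset.mem_univ, true_and] at hx
    exact hx.1 hxA
  have hdisj' : Disjoint ((univ \ A) \ B) B := Finset.sdiff_disjoint
  rcases hor with ⟨h1, h2, h3⟩ | ⟨h1, h2, h3⟩
  · exact ⟨A ∩ B, (univ \ A) \ B, h1, h2, h3, hA _ _ Finset.inter_subset_left hdisj,
      hB _ _ Finset.inter_subset_right hdisj'⟩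
  · exact ⟨A \ B, B \ A, h1, h2, h3, hA _ _ Finset.sdiff_subset Finset.sdiff_disjoint,
      T.symm (hB _ _ Finset.sdiff_subset Finset.sdiff_disjoint)⟩

theorem pos_main (S T : Sys n) (hn : 12 ≤ n) {j : ℕ} (h2 : 2 ≤ j) (hj : 2 * j + 4 ≤ n) :
    0 < (pats S T j).card := by
  obtain ⟨C, D, hC, hD, hCD, hS, hT⟩ := exists_two S T hn
  obtain ⟨c, d, hc2, hd2, hcC, hdD, hcd⟩ : ∃ c d : ℕ, 2 ≤ c ∧ 2 ≤ d ∧ c ≤ C.card ∧ d ≤ D.card ∧
      c + d = j + 2 := by
    by_cases h : j ≤ C.card
    · exact ⟨j, 2, h2, le_refl _, h, hD, rfl⟩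
    · exact ⟨C.card, j + 2 - C.card, hC, by omega, le_refl _, by omega, by omega⟩
  obtain ⟨C', hC', hC'c⟩ := Finset.exists_subset_card_eq hcC
  obtain ⟨D', hD', hD'd⟩ := Finset.exists_subset_card_eq hdD
  have hS' : S.sep C' D' := S.mono hC' (S.symm (S.mono hD' (S.symm hS)))
  have hT' : T.sep C' D' := T.mono hC' (T.symm (T.mono hD' (T.symm hT)))
  have hne : C' ≠ D' := by
    rintro rfl
    have := S.disj hS'
    rw [Finset.disjoint_self_iff_empty] at this
    rw [this] at hC'c
    simp at hC'c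
    omega
  refine Finset.card_pos.2 ⟨{C', D'}, mem_pats.2 ⟨isPat_pair (by omega) (by omega) hS' hT', ?_, ?_⟩⟩
  · unfold exc
    rw [Finset.sum_pair hne]
    omega
  · rw [Finset.card_pair hne]

end Pool.Agent.Lib.MP_251106_co
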