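import Mathlib
import Pool.Agent.Lib.MP_251106_co.Pat

set_option autoImplicit false

/-!
# The first half of the sequence

`j * (number of patterns of excess j) ≤ (n - j) * (number of patterns of excess j - 1)` if `n < 2j`.
-/

namespace Pool.Agent.Lib.MP_251106_co

open Finset

variable {n : ℕ} {S T : Sys n}

/-- the number of sets with two elements -/
def two (γ : Finset (Finset (Fin n))) : ℕ := (γ.filter fun C => C.card = 2).card

open Classical in
/-- the leaves which may be split off -/
noncomputable def good (S : Sys n) (γ : Finset (Finset (Fin n))) :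
    Finset (Finset (Fin n) × Fin n) :=
  univ.filter fun t => t.1 ∈ γ ∧ 3 ≤ t.1.card ∧ t.2 ∈ t.1 ∧ S.up t.2 (t.1.erase t.2)

theorem mem_good {γ : Finset (Finset (Fin n))} {C : Finset (Fin n)} {x : Fin n} :
    (C, x) ∈ good S γ ↔ C ∈ γ ∧ 3 ≤ C.card ∧ x ∈ C ∧ S.up x (C.erase x) := by
  simp only [good, Finset.mem_filter, Finset.mem_univ, true_and]

/-- There are at least `exc γ - two γ` leaves which may be split off. -/
theorem exc_le_good (γ : Finset (Finset (Fin n))) (h : IsPat S T γ) :
    exc γ ≤ (good S γ).card + two γ := by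
  classical
  have h1 : exc γ = ∑ C ∈ γ.filter (fun C => C.card = 2), (C.card - 1) +
      ∑ C ∈ γ.filter (fun C => ¬ C.card = 2), (C.card - 1) := by
    unfold exc
    exact (Finset.sum_filter_add_sum_filter_not _ _ _).symm
  have h2 : ∑ C ∈ γ.filter (fun C => C.card = 2), (C.card - 1) = two γ := by
    unfold two
    rw [Finset.card_eq_sum_ones]
    refine Finset.sum_congr rfl fun C hC => ?_
    rw [Finset.mem_filter] at hC
    rw [hC.2]
  have h3 : ∑ C ∈ γ.filter (fun C => ¬ C.card = 2), (C.card - 1) ≤ (good S γ).card := by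
    have h4 : ∀ C ∈ γ.filter (fun C => ¬ C.card = 2),
        C.card - 1 ≤ ((good S γ).filter fun t => t.1 = C).card := by
      intro C hC
      rw [Finset.mem_filter] at hC
      have h5 := h.two C hC.1
      have h6 : 3 ≤ C.card := by omega
      obtain ⟨y, hy, hall⟩ := S.up_bad C h6
      rw [← Finset.card_erase_of_mem hy]
      refine Finset.card_le_card_of_injOn (fun x => (C, x)) ?_ ?_
      · intro x hx
        rw [Finset.mem_coe, Finset.mem_erase] at hx
        rw [Finset.mem_coe, Finset.mem_filter]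
        exact ⟨mem_good.2 ⟨hC.1, h6, hx.2, hall x hx.2 hx.1⟩, rfl⟩
      · intro x _ y _ hxy
        exact (Prod.mk.inj hxy).2
    refine (Finset.sum_le_sum h4).trans ?_
    rw [← Finset.card_biUnion]
    · exact Finset.card_le_card (Finset.biUnion_subset.2 fun C _ => Finset.filter_subset _ _)
    · intro C _ D _ hne
      change Disjoint _ _
      rw [Finset.disjoint_left]
      intro t ht ht'
      rw [Finset.mem_filter] at ht ht'
      exact hne (ht.2.symm.trans ht'.2)
  omega

/-- the pattern after splitting off -/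
def splitOff (t : Finset (Finset (Fin n)) × Finset (Fin n) × Fin n) :
    Finset (Finset (Fin n)) :=
  Insert.insert (t.2.1.erase t.2.2) (t.1.erase t.2.1)

open Classical in
/-- all ways to split off a leaf -/
noncomputable def splits (S T : Sys n) (j : ℕ) :
    Finset (Finset (Finset (Fin n)) × Finset (Fin n) × Fin n) :=
  univ.filter fun t => t.1 ∈ pats S T j ∧ t.2 ∈ good S t.1

theorem mem_splits {j : ℕ} {γ : Finset (Finset (Fin n))} {C : Finset (Fin n)} {x : Fin n} :
    (γ, C, x) ∈ splits S T j ↔ γ ∈ pats S T j ∧ (C, x) ∈ good S γ := by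
  simp only [splits, Finset.mem_filter, Finset.mem_univ, true_and]

theorem splitOff_mem {j : ℕ} {γ : Finset (Finset (Fin n))} {C : Finset (Fin n)} {x : Fin n}
    (h : (γ, C, x) ∈ splits S T j) :
    splitOff (γ, C, x) ∈ pats S T (j - 1) ∧ x ∉ used (splitOff (γ, C, x)) := by
  obtain ⟨h1, h2⟩ := mem_splits.1 h
  obtain ⟨h3, h4, h5⟩ := mem_pats.1 h1
  obtain ⟨hC, hC3, hx, -⟩ := mem_good.1 h2
  obtain ⟨a1, a2, a3, a4⟩ := h3.split hC hC3 hx
  refine ⟨mem_pats.2 ⟨a1, ?_, ?_⟩, a4⟩
  · unfold splitOff
    simp only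
    omega
  · unfold splitOff
    simp only
    omega

/-- The leaf determines the way in which it was split off. -/
theorem splitOff_inj {j : ℕ} {γ γ' : Finset (Finset (Fin n))} {C C' : Finset (Fin n)} {x : Fin n}
    (h : (γ, C, x) ∈ splits S T j) (h' : (γ', C', x) ∈ splits S T j)
    (he : splitOff (γ, C, x) = splitOff (γ', C', x)) : γ = γ' ∧ C = C' := by
  classical
  obtain ⟨h1, h2⟩ := mem_splits.1 h
  obtain ⟨h3, h4, h5⟩ := mem_pats.1 h1
  obtain ⟨hC, hC3, hx, hup⟩ := mem_good.1 h2
  obtain ⟨h1', h2'⟩ := mem_splits.1 h'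
  obtain ⟨h3', h4', h5'⟩ := mem_pats.1 h1'
  obtain ⟨hC', hC3', hx', hup'⟩ := mem_good.1 h2'
  simp only [splitOff] at he
  have key : C.erase x = C'.erase x := by
    by_contra hne
    have e1 : C.erase x ∈ γ'.erase C' := by
      have : C.erase x ∈ Insert.insert (C'.erase x) (γ'.erase C') := by
        rw [← he]
        exact Finset.mem_insert_self _ _
      rcases Finset.mem_insert.1 this with h | h
      · exact absurd h hne
      · exact h
    have e2 : C'.erase x ∈ γ.erase C := by
      have : C'.erase x ∈ Insert.insert (C.erase x) (γ.erase C) := by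
        rw [he]
        exact Finset.mem_insert_self _ _
      rcases Finset.mem_insert.1 this with h | h
      · exact absurd h.symm hne
      · exact h
    rw [Finset.mem_erase] at e1 e2
    refine S.up_unique hup hup' ?_ ?_
    · rw [Finset.insert_erase hx]
      exact h3.sepS C hC _ e2.2 e2.1.symm
    · rw [Finset.insert_erase hx']
      exact h3'.sepS C' hC' _ e1.2 e1.1.symm
  have hCC : C = C' := by
    rw [← Finset.insert_erase hx, ← Finset.insert_erase hx', key]
  subst hCC
  refine ⟨?_, rfl⟩
  have n1 : C.erase x ∉ γ.erase C :=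
    h3.notMem_erase hC (Finset.erase_subset _ _)
      (Finset.card_pos.1 (by rw [Finset.card_erase_of_mem hx]; omega))
  have n2 : C.erase x ∉ γ'.erase C :=
    h3'.notMem_erase hC' (Finset.erase_subset _ _)
      (Finset.card_pos.1 (by rw [Finset.card_erase_of_mem hx]; omega))
  have h6 : γ.erase C = γ'.erase C := by
    rw [← Finset.erase_insert n1, ← Finset.erase_insert n2, he]
  rw [← Finset.insert_erase hC, ← Finset.insert_erase hC', h6]

/-- The count of the leaves which are not in the sets. -/
theorem single_le {j : ℕ} {γ : Finset (Finset (Fin n))} {C : Finset (Fin n)} {x : Fin n}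
    (h : (γ, C, x) ∈ splits S T j) :
    ((used (splitOff (γ, C, x)))ᶜ).card + two γ + j ≤ n := by
  classical
  obtain ⟨h1, h2⟩ := mem_splits.1 h
  obtain ⟨h3, h4, h5⟩ := mem_pats.1 h1
  obtain ⟨hC, hC3, hx, -⟩ := mem_good.1 h2
  obtain ⟨a1, a2, a3, a4⟩ := h3.split hC hC3 hx
  have h6 := a1.card_used
  have h7 : (used (splitOff (γ, C, x)))ᶜ.card = n - (used (splitOff (γ, C, x))).card := by
    rw [Finset.card_compl, Fintype.card_fin]
  have h8 : two γ + 1 ≤ γ.card := by
    unfold two
    have h9 : γ.filter (fun C => C.card = 2) ⊆ γ.erase C := by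
      intro D hD
      rw [Finset.mem_filter] at hD
      rw [Finset.mem_erase]
      refine ⟨?_, hD.1⟩
      rintro rfl
      omega
    have h10 := Finset.card_le_card h9
    rw [Finset.card_erase_of_mem hC] at h10
    have h11 := Finset.card_pos.2 ⟨C, hC⟩
    omega
  have h12 := h3.le
  have h13 : (used (splitOff (γ, C, x))).card = j - 1 + γ.card := by
    change (used (Insert.insert (C.erase x) (γ.erase C))).card = _
    rw [h6, a3]
    omega
  rw [h7, h13]
  omega

/-- **The first half.** -/
theorem up_main {j : ℕ} (hj : n < 2 * j) :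
    j * (pats S T j).card ≤ (n - j) * (pats S T (j - 1)).card := by
  classical
  by_cases hne : (pats S T j).card = 0
  · rw [hne]
    simp
  obtain ⟨γ0, hγ0⟩ := Finset.card_pos.1 (Nat.pos_of_ne_zero hne)
  have hγ0' := mem_pats.1 hγ0
  have hjn : j ≤ n := by
    have := hγ0'.1.le
    omega
  have hj0 : 0 < j := by omega
  have hjQ : (0 : ℚ) < j := by exact_mod_cast hj0
  -- the weights
  set w : Finset (Finset (Fin n)) → ℚ := fun γ => 1 / ((j : ℚ) - two γ) with hw
  have htwo : ∀ γ ∈ pats S T j, two γ < j := by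
    intro γ hγ
    obtain ⟨h1, h2, h3⟩ := mem_pats.1 hγ
    have h4 := h1.le
    have h5 : two γ ≤ γ.card := Finset.card_filter_le _ _
    omega
  have hA : ((pats S T j).card : ℚ) ≤ ∑ t ∈ splits S T j, w t.1 := by
    have h1 : ∑ t ∈ splits S T j, w t.1 =
        ∑ γ ∈ pats S T j, ∑ t ∈ (splits S T j).filter (fun t => t.1 = γ), w t.1 := by
      refine (Finset.sum_fiberwise_of_maps_to (fun t ht => ?_) _).symm
      obtain ⟨γ, C, x⟩ := t
      exact (mem_splits.1 ht).1
    rw [h1, Finset.card_eq_sum_ones]
    push_cast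
    refine Finset.sum_le_sum fun γ hγ => ?_
    have h2 : ∑ t ∈ (splits S T j).filter (fun t => t.1 = γ), w t.1 =
        ((splits S T j).filter (fun t => t.1 = γ)).card * w γ := by
      rw [Finset.sum_congr rfl (g := fun _ => w γ), Finset.sum_const, nsmul_eq_mul]
      intro t ht
      rw [(Finset.mem_filter.1 ht).2]
    rw [h2]
    have h3 : (good S γ).card ≤ ((splits S T j).filter (fun t => t.1 = γ)).card := by
      refine Finset.card_le_card_of_injOn (fun t => (γ, t)) ?_ ?_
      · rintro ⟨C, x⟩ ht
        rw [Finset.mem_coe] at ht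
        rw [Finset.mem_coe, Finset.mem_filter]
        exact ⟨mem_splits.2 ⟨hγ, ht⟩, rfl⟩
      · intro s _ t _ hst
        exact (Prod.mk.inj hst).2
    obtain ⟨h4, h5, h6⟩ := mem_pats.1 hγ
    have h7 := exc_le_good γ h4
    have h8 := htwo γ hγ
    have h9 : (0 : ℚ) < (j : ℚ) - two γ := by
      have : ((two γ : ℕ) : ℚ) < j := by exact_mod_cast h8
      linarith
    have h10 : (j : ℚ) - two γ ≤ (((splits S T j).filter (fun t => t.1 = γ)).card : ℚ) := by
      have : (j : ℚ) ≤ (((splits S T j).filter (fun t => t.1 = γ)).card : ℚ) + two γ := by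
        exact_mod_cast (by omega : j ≤ ((splits S T j).filter (fun t => t.1 = γ)).card + two γ)
      linarith
    rw [hw]
    simp only
    rw [mul_one_div, le_div_iff₀ h9]
    linarith
  have hB : ∑ t ∈ splits S T j, w t.1 ≤
      (pats S T (j - 1)).card * (((n : ℚ) - j) / j) := by
    have h1 : ∑ t ∈ splits S T j, w t.1 =
        ∑ δ ∈ pats S T (j - 1), ∑ t ∈ (splits S T j).filter (fun t => splitOff t = δ), w t.1 := by
      refine (Finset.sum_fiberwise_of_maps_to (fun t ht => ?_) _).symm
      obtain ⟨γ, C, x⟩ := t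
      exact (splitOff_mem ht).1
    rw [h1, ← nsmul_eq_mul]
    refine Finset.sum_le_card_nsmul _ _ _ fun δ hδ => ?_
    -- the number of terms
    set q := ((used δ)ᶜ).card with hq
    have h2 : ((splits S T j).filter (fun t => splitOff t = δ)).card ≤ q := by
      refine Finset.card_le_card_of_injOn (fun t => t.2.2) ?_ ?_
      · rintro ⟨γ, C, x⟩ ht
        rw [Finset.mem_coe, Finset.mem_filter] at ht
        rw [Finset.mem_coe, Finset.mem_compl, ← ht.2]
        exact (splitOff_mem ht.1).2
      · rintro ⟨γ, C, x⟩ ht ⟨γ', C', x'⟩ ht' hxx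
        rw [Finset.mem_coe, Finset.mem_filter] at ht ht'
        simp only at hxx
        subst hxx
        obtain ⟨rfl, rfl⟩ := splitOff_inj ht.1 ht'.1 (ht.2.trans ht'.2.symm)
        rfl
    have h3 : ∀ t ∈ (splits S T j).filter (fun t => splitOff t = δ),
        (q : ℚ) * w t.1 ≤ ((n : ℚ) - j) / j := by
      rintro ⟨γ, C, x⟩ ht
      rw [Finset.mem_filter] at ht
      have h4 := single_le ht.1
      rw [ht.2] at h4
      have h5 := htwo γ (mem_splits.1 ht.1).1
      have h6 : (0 : ℚ) < (j : ℚ) - two γ := by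
        have : ((two γ : ℕ) : ℚ) < j := by exact_mod_cast h5
        linarith
      rw [hw]
      simp only
      rw [mul_one_div, div_le_div_iff₀ h6 hjQ]
      have h7 : (q : ℚ) + two γ + j ≤ n := by exact_mod_cast h4
      have h8 : (n : ℚ) < 2 * j := by exact_mod_cast hj
      have h9 : (0 : ℚ) ≤ two γ := Nat.cast_nonneg _
      nlinarith [mul_nonneg h9 (sub_nonneg.2 h8.le), mul_nonneg (sub_nonneg.2 h7) hjQ.le]
    rcases Nat.eq_zero_or_pos q with h0 | h0
    · rw [h0] at h2
      have h4 : (splits S T j).filter (fun t => splitOff t = δ) = ∅ :=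
        Finset.card_eq_zero.1 (Nat.le_zero.1 h2)
      rw [h4, Finset.sum_empty]
      have : (j : ℚ) ≤ n := by exact_mod_cast hjn
      exact div_nonneg (by linarith) hjQ.le
    · have hqQ : (0 : ℚ) < q := by exact_mod_cast h0
      have h4 : ∀ t ∈ (splits S T j).filter (fun t => splitOff t = δ),
          w t.1 ≤ ((n : ℚ) - j) / j / q := by
        intro t ht
        rw [le_div_iff₀ hqQ, mul_comm]
        exact h3 t ht
      refine (Finset.sum_le_card_nsmul _ _ _ h4).trans ?_
      rw [nsmul_eq_mul]
      have h5 : (((splits S T j).filter (fun t => splitOff t = δ)).card : ℚ) ≤ q := by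
        exact_mod_cast h2
      have h6 : (0 : ℚ) ≤ ((n : ℚ) - j) / j := by
        have : (j : ℚ) ≤ n := by exact_mod_cast hjn
        exact div_nonneg (by linarith) hjQ.le
      rw [mul_div_assoc', div_le_iff₀ hqQ]
      nlinarith
  have h1 := hA.trans hB
  rw [mul_div_assoc', le_div_iff₀ hjQ] at h1
  have h2 : ((j * (pats S T j).card : ℕ) : ℚ) ≤ (((n - j) * (pats S T (j - 1)).card : ℕ) : ℚ) := by
    push_cast [Nat.cast_sub hjn]
    linarith
  exact_mod_cast h2

end Pool.Agent.Lib.MP_251106_co
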