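import Mathlib
import Pool.Agent.Lib.MP_251106_co.Bij
import Pool.Agent.Lib.MP_251106_co.Up
import Pool.Agent.Lib.MP_251106_co.Down
import Pool.Agent.Lib.MP_251106_co.Pos
import Pool.Agent.Lib.MP_251106_co.Child
import Pool.Agent.Lib.MP_251106_co.Exist

set_option autoImplicit false

/-!
# From pairs of trees to the minima
-/

namespace Pool.Agent.Lib.MP_251106_co

variable {n : ℕ}

/-- A minimum over a non-empty family of pairs of trees. -/
theorem min_attained (Pr : PhyloTree n → Prop) (hex : ∃ T, Pr T) (k : ℕ) :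
    (∃ T F : PhyloTree n, Pr T ∧ Pr F ∧
      sInf {m | ∃ T F : PhyloTree n, Pr T ∧ Pr F ∧ m = common T F k} = common T F k) ∧
    ∀ T F : PhyloTree n, Pr T → Pr F →
      sInf {m | ∃ T F : PhyloTree n, Pr T ∧ Pr F ∧ m = common T F k} ≤ common T F k := by
  constructor
  · obtain ⟨T, hT⟩ := hex
    have hne : {m | ∃ T F : PhyloTree n, Pr T ∧ Pr F ∧ m = common T F k}.Nonempty :=
      ⟨_, T, T, hT, hT, rfl⟩
    obtain ⟨T', F', h1, h2, h3⟩ := Nat.sInf_mem hne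
    exact ⟨T', F', h1, h2, h3⟩
  · intro T F hT hF
    exact Nat.sInf_le ⟨T, F, hT, hF, rfl⟩

/-- The excess over the number of trivial partitions of the minimum over a class of trees. -/
noncomputable def val (Pr : PhyloTree n → Prop) (k : ℕ) : ℤ :=
  (sInf {m | ∃ T F : PhyloTree n, Pr T ∧ Pr F ∧ m = common T F k} : ℕ) - (n.choose (k - 1) : ℤ)

theorem val_attained (x0 : Fin n) (Pr : PhyloTree n → Prop) (hex : ∃ T, Pr T) {k : ℕ}
    (hk1 : 1 ≤ k) (hk : k + 1 ≤ n) :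
    (∃ T F : PhyloTree n, Pr T ∧ Pr F ∧
      val Pr k = ((pats (T.sys x0) (F.sys x0) (n - k)).card : ℤ)) ∧
    ∀ T F : PhyloTree n, Pr T → Pr F →
      val Pr k ≤ ((pats (T.sys x0) (F.sys x0) (n - k)).card : ℤ) := by
  obtain ⟨⟨T, F, hT, hF, h⟩, hle⟩ := min_attained Pr hex k
  constructor
  · refine ⟨T, F, hT, hF, ?_⟩
    unfold val
    rw [h, common_eq' T F x0 hk1 hk]
    push_cast
    ring
  · intro T F hT hF
    have h1 := hle T F hT hF
    rw [common_eq' T F x0 hk1 hk] at h1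
    unfold val
    have h2 : ((sInf {m | ∃ T F : PhyloTree n, Pr T ∧ Pr F ∧ m = common T F k} : ℕ) : ℤ) ≤
        ((pats (T.sys x0) (F.sys x0) (n - k)).card : ℤ) + (n.choose (k - 1) : ℤ) := by
      exact_mod_cast h1
    linarith

theorem val_nonneg (x0 : Fin n) (Pr : PhyloTree n → Prop) (hex : ∃ T, Pr T) {k : ℕ}
    (hk1 : 1 ≤ k) (hk : k + 1 ≤ n) : 0 ≤ val Pr k := by
  obtain ⟨⟨T, F, -, -, h⟩, -⟩ := val_attained x0 Pr hex hk1 hk
  rw [h]
  exact Nat.cast_nonneg _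

theorem val_up (x0 : Fin n) (Pr : PhyloTree n → Prop) (hex : ∃ T, Pr T) {k : ℕ}
    (hk1 : 1 ≤ k) (hk : 2 * k < n) : ((n : ℤ) - k) * val Pr k ≤ k * val Pr (k + 1) := by
  have hk2 : k + 1 + 1 ≤ n := by omega
  obtain ⟨⟨T, F, hT, hF, h⟩, -⟩ := val_attained x0 Pr hex (by omega : 1 ≤ k + 1) hk2
  obtain ⟨-, h2⟩ := val_attained x0 Pr hex hk1 (by omega : k + 1 ≤ n)
  have h3 := h2 T F hT hF
  have h4 := up_main (S := T.sys x0) (T := F.sys x0) (j := n - k) (by omega)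
  have e1 : n - (n - k) = k := by omega
  have e2 : n - k - 1 = n - (k + 1) := by omega
  rw [e1, e2] at h4
  have h5 : ((n : ℤ) - k) * ((pats (T.sys x0) (F.sys x0) (n - k)).card : ℤ) ≤
      k * ((pats (T.sys x0) (F.sys x0) (n - (k + 1))).card : ℤ) := by
    have : (((n - k) * (pats (T.sys x0) (F.sys x0) (n - k)).card : ℕ) : ℤ) ≤
        ((k * (pats (T.sys x0) (F.sys x0) (n - (k + 1))).card : ℕ) : ℤ) := by exact_mod_cast h4
    push_cast [Nat.cast_sub (show k ≤ n by omega)] at this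
    exact this
  rw [h]
  refine le_trans (mul_le_mul_of_nonneg_left h3 ?_) h5
  have : (k : ℤ) ≤ n := by exact_mod_cast (by omega : k ≤ n)
  linarith

theorem val_down (x0 : Fin n) (Pr : PhyloTree n → Prop) (hex : ∃ T, Pr T) {j : ℕ}
    (hj : 2 ≤ j) (hn : 2 ^ 30 * j ^ 11 ≤ n) :
    (n : ℤ) ^ 2 * val Pr (n - j + 1) ≤ 2 ^ 66 * (j : ℤ) ^ 15 * val Pr (n - j) := by
  have hjn : 4 * j ≤ n := by
    have : j ≤ j ^ 11 := Nat.le_self_pow (by norm_num) j
    omega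
  obtain ⟨⟨T, F, hT, hF, h⟩, -⟩ := val_attained x0 Pr hex (by omega : 1 ≤ n - j)
    (by omega : n - j + 1 ≤ n)
  obtain ⟨-, h2⟩ := val_attained x0 Pr hex (by omega : 1 ≤ n - j + 1) (by omega : n - j + 1 + 1 ≤ n)
  have h3 := h2 T F hT hF
  have h4 := down_main (T.sys x0) (F.sys x0) (j := j) (by omega) hn
  have e1 : n - (n - j) = j := by omega
  have e2 : n - (n - j + 1) = j - 1 := by omega
  rw [e1] at h
  rw [e2] at h3
  rw [h]
  have h5 : (n : ℤ) ^ 2 * ((pats (T.sys x0) (F.sys x0) (j - 1)).card : ℤ) ≤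
      2 ^ 66 * (j : ℤ) ^ 15 * ((pats (T.sys x0) (F.sys x0) j).card : ℤ) := by exact_mod_cast h4
  exact le_trans (mul_le_mul_of_nonneg_left h3 (by positivity)) h5

theorem val_pos (x0 : Fin n) (Pr : PhyloTree n → Prop) (hex : ∃ T, Pr T) {k : ℕ}
    (hn : 12 ≤ n) (hk : n + 4 ≤ 2 * k) (hkn : k + 2 ≤ n) : 0 < val Pr k := by
  obtain ⟨⟨T, F, -, -, h⟩, -⟩ := val_attained x0 Pr hex (by omega : 1 ≤ k) (by omega : k + 1 ≤ n)
  rw [h]
  exact_mod_cast pos_main (T.sys x0) (F.sys x0) hn (by omega : 2 ≤ n - k) (by omega)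

theorem val_growth (x0 : Fin n) (Pr : PhyloTree n → Prop) (hex : ∃ T, Pr T) {k : ℕ}
    (hk1 : 2 ≤ k) (hk : k + 2 ≤ n) : val Pr (k - 1) ≤ (n : ℤ) ^ 2 * val Pr k := by
  obtain ⟨⟨T, F, hT, hF, h⟩, -⟩ := val_attained x0 Pr hex (by omega : 1 ≤ k)
    (by omega : k + 1 ≤ n)
  obtain ⟨-, h2⟩ := val_attained x0 Pr hex (by omega : 1 ≤ k - 1) (by omega : k - 1 + 1 ≤ n)
  have h3 := h2 T F hT hF
  have h4 := child_main (T.sys x0) (F.sys x0) (j := n - k) (by omega)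
  have e1 : n - (k - 1) = n - k + 1 := by omega
  rw [e1] at h3
  rw [h]
  refine h3.trans ?_
  exact_mod_cast h4

/-- All inequalities for a class of trees. -/
theorem all_main (hn : 3 ≤ n) (Pr : PhyloTree n → Prop) (hex : ∃ T, Pr T) :
    (∀ k : ℕ, 1 ≤ k → 2 * k < n → 0 ≤ val Pr k ∧ val Pr k ≤ val Pr (k + 1) ∧
      ((n : ℤ) - k) * val Pr k ≤ k * val Pr (k + 1)) ∧
    (12 ≤ n → ∀ k : ℕ, n + 4 ≤ 2 * k → k + 2 ≤ n → 0 < val Pr k) ∧
    (∀ k : ℕ, k + 2 ≤ n → 2 ^ 30 * (n - k) ^ 11 ≤ n →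
      val Pr (k + 1) < val Pr k ∧
      (n : ℤ) ^ 2 * val Pr (k + 1) ≤ 2 ^ 66 * ((n : ℤ) - k) ^ 15 * val Pr k ∧
      val Pr (k - 1) * val Pr (k + 1) ≤ 2 ^ 66 * ((n : ℤ) - k) ^ 15 * val Pr k ^ 2) := by
  have x0 : Fin n := ⟨0, by omega⟩
  refine ⟨?_, ?_, ?_⟩
  · intro k hk1 hk
    have h0 := val_nonneg x0 Pr hex hk1 (by omega : k + 1 ≤ n)
    have h1 := val_up x0 Pr hex hk1 hk
    refine ⟨h0, ?_, h1⟩
    have hk' : (k : ℤ) ≤ (n : ℤ) - k := by
      have : (2 : ℤ) * k < n := by exact_mod_cast hk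
      linarith
    have hk0 : (0 : ℤ) < k := by exact_mod_cast hk1
    have h2 : (k : ℤ) * val Pr k ≤ k * val Pr (k + 1) :=
      (mul_le_mul_of_nonneg_right hk' h0).trans h1
    exact le_of_mul_le_mul_left h2 hk0
  · intro hn12 k hk hkn
    exact val_pos x0 Pr hex hn12 hk hkn
  · intro k hk hnk
    have hj : 2 ≤ n - k := by omega
    have hbig : 4 * (n - k) + 12 ≤ n := by
      have h1 : n - k ≤ (n - k) ^ 11 := Nat.le_self_pow (by norm_num) _
      omega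
    have hcast : ((n - k : ℕ) : ℤ) = (n : ℤ) - k := by
      rw [Nat.cast_sub (by omega)]
    have e1 : n - (n - k) = k := by omega
    have e2 : n - (n - k) + 1 = k + 1 := by omega
    have h1 := val_down x0 Pr hex hj hnk
    rw [e1, hcast] at h1
    have hpos := val_pos x0 Pr hex (by omega : 12 ≤ n) (by omega : n + 4 ≤ 2 * k) hk
    have hnn := val_nonneg x0 Pr hex (by omega : 1 ≤ k + 1) (by omega : k + 1 + 1 ≤ n)
    have hgr := val_growth x0 Pr hex (by omega : 2 ≤ k) hk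
    set J : ℤ := (n : ℤ) - k with hJ
    have hJ2 : 2 ≤ J := by
      rw [← hcast]
      exact_mod_cast hj
    have hnJ : 2 ^ 30 * J ^ 11 ≤ (n : ℤ) := by
      rw [← hcast]
      exact_mod_cast hnk
    have hn2 : 2 ^ 60 * J ^ 22 ≤ (n : ℤ) ^ 2 := by
      have h2 : (2 ^ 30 * J ^ 11) ^ 2 ≤ (n : ℤ) ^ 2 := pow_le_pow_left₀ (by positivity) hnJ 2
      calc 2 ^ 60 * J ^ 22 = (2 ^ 30 * J ^ 11) ^ 2 := by ring
        _ ≤ _ := h2
    refine ⟨?_, h1, ?_⟩
    · -- strict decrease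
      have hJ15 : 0 < 2 ^ 59 * J ^ 15 := by positivity
      have h2 : 2 ^ 60 * J ^ 22 * val Pr (k + 1) ≤ 2 ^ 66 * J ^ 15 * val Pr k :=
        (mul_le_mul_of_nonneg_right hn2 hnn).trans h1
      have h3 : 128 ≤ J ^ 7 := by
        calc (128 : ℤ) = 2 ^ 7 := by norm_num
          _ ≤ J ^ 7 := pow_le_pow_left₀ (by norm_num) hJ2 7
      have h4 : 2 ^ 59 * J ^ 15 * (2 * J ^ 7 * val Pr (k + 1)) ≤
          2 ^ 59 * J ^ 15 * (128 * val Pr k) := by
        calc 2 ^ 59 * J ^ 15 * (2 * J ^ 7 * val Pr (k + 1)) = 2 ^ 60 * J ^ 22 * val Pr (k + 1) := by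
              ring
          _ ≤ _ := h2
          _ = _ := by ring
      have h5 := le_of_mul_le_mul_left h4 hJ15
      nlinarith [mul_le_mul_of_nonneg_right h3 hnn]
    · have h2 : val Pr (k - 1) * val Pr (k + 1) ≤ (n : ℤ) ^ 2 * val Pr k * val Pr (k + 1) :=
        mul_le_mul_of_nonneg_right hgr hnn
      calc val Pr (k - 1) * val Pr (k + 1) ≤ (n : ℤ) ^ 2 * val Pr k * val Pr (k + 1) := h2
        _ = ((n : ℤ) ^ 2 * val Pr (k + 1)) * val Pr k := by ring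
        _ ≤ (2 ^ 66 * J ^ 15 * val Pr k) * val Pr k := mul_le_mul_of_nonneg_right h1 hpos.le
        _ = 2 ^ 66 * J ^ 15 * val Pr k ^ 2 := by ring

theorem a_eq_val (n k : ℕ) : a n k = val (n := n) (fun _ => True) k := by
  unfold a s val
  simp only [true_and]

theorem b_eq_val (n k : ℕ) : b n k = val (n := n) PhyloTree.IsCaterpillar k := by
  unfold b c val
  rfl

end Pool.Agent.Lib.MP_251106_co
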